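import Pool.Agent.MP_3ee8cb_gt.DZ.Spec

/-! The third absolute moment of the measure on directions. -/

namespace Pool.Agent.MP_3ee8cb_gt.DRB

open Set MeasureTheory Real
open scoped RealInnerProductSpace
open DN (Dim dm)

theorem cube (a b : ℝ) : 2 * |a| ^ 3 + 6 * (|a| * b ^ 2) ≤ |a + b| ^ 3 + |a - b| ^ 3 := by
  have key : ∀ x y : ℝ, 0 ≤ x → 0 ≤ y →
      2 * x ^ 3 + 6 * (x * y ^ 2) ≤ |x + y| ^ 3 + |x - y| ^ 3 := fun x y hx hy => by
    rw [abs_of_nonneg (add_nonneg hx hy)]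
    rcases le_total y x with h | h
    · rw [abs_of_nonneg (sub_nonneg.2 h)]
      nlinarith
    · rw [abs_of_nonpos (sub_nonpos.2 h)]
      nlinarith [pow_nonneg (sub_nonneg.2 h) 3]
  have k := key |a| |b| (abs_nonneg a) (abs_nonneg b)
  rw [sq_abs] at k
  refine k.trans (le_of_eq ?_)
  rcases abs_cases a with ⟨h, -⟩ | ⟨h, -⟩ <;> rcases abs_cases b with ⟨h', -⟩ | ⟨h', -⟩ <;>
    rw [h, h']
  · rw [← sub_eq_add_neg, sub_neg_eq_add, add_comm]
  · rw [show -a + b = -(a - b) by ring, show -a - b = -(a + b) by ring, abs_neg, abs_neg,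
      add_comm]
  · rw [show -a + -b = -(a + b) by ring, show -a - -b = -(a - b) by ring, abs_neg, abs_neg]

theorem cube_le {r u : ℝ} (hr : 0 ≤ r) (hu : 0 ≤ u) (h : r ^ 2 = 1 + u) :
    r ^ 3 ≤ 1 + 3 / 2 * u + u ^ 2 := by
  refine (pow_le_pow_iff_left₀ (by positivity) (by positivity) two_ne_zero).1 ?_
  rw [show (r ^ 3) ^ 2 = (r ^ 2) ^ 3 by ring, h]
  nlinarith [pow_nonneg hu 2, pow_nonneg hu 3, pow_nonneg hu 4]

variable [Dim]

open DN DZ

theorem un_le (w : V) : ‖un w‖ ≤ 1 := by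
  rw [un, norm_smul, norm_inv, norm_norm]
  exact inv_mul_le_one_of_le₀ le_rfl (norm_nonneg _)

theorem abs_le (w c : V) : |⟪un w, c⟫| ≤ ‖c‖ :=
  (abs_real_inner_le_norm _ _).trans (mul_le_of_le_one_left (norm_nonneg _) (un_le w))

theorem int12 (ms : MS) (a b : V) :
    Integrable (fun w : V => |⟪un w, a⟫| * ⟪un w, b⟫ ^ 2) mS := by
  have := ms.fin
  refine Integrable.of_bound (Measurable.aestronglyMeasurable (by unfold un; fun_prop))
    (‖a‖ * ‖b‖ ^ 2) (.of_forall fun w => ?_)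
  rw [norm_mul, norm_pow, norm_eq_abs, abs_abs, norm_eq_abs]
  exact mul_le_mul (abs_le w a) (pow_le_pow_left₀ (abs_nonneg _) (abs_le w b) 2)
    (by positivity) (norm_nonneg _)

theorem int3 (ms : MS) (a : V) : Integrable (fun w : V => |⟪un w, a⟫| ^ 3) mS :=
  (int12 ms a a).congr (.of_forall fun w => by
    simp only []
    rw [← sq_abs]
    ring)

theorem int1 (ms : MS) (a : V) : Integrable (fun w : V => |⟪un w, a⟫|) mS := by
  have := ms.fin
  exact Integrable.of_bound (Measurable.aestronglyMeasurable (by unfold un; fun_prop)) ‖a‖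
    (.of_forall fun w => by rw [norm_eq_abs, abs_abs]; exact abs_le w a)

theorem un_norm (ms : MS) : ∀ᵐ w ∂mS, ‖un w‖ = 1 := by
  filter_upwards [ms.mem] with w hw
  have : 0 < ‖w‖ := one_pos.trans_le hw.1
  rw [un, norm_smul, norm_inv, norm_norm, inv_mul_cancel₀ this.ne']

/-- A function of one coordinate has the same mean for all directions of one length. -/
theorem rot (ms : MS) (g : ℝ → ℝ) {c d : V} (h : ‖c‖ = ‖d‖) :
    ∫ w, g ⟪un w, c⟫ ∂mS = ∫ w, g ⟪un w, d⟫ ∂mS := by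
  let R := (ℝ ∙ (c - d))ᗮ.reflection
  have hR : R c = d := Submodule.reflection_sub h
  have := (ms.rot R).integral_comp R.toHomeomorph.measurableEmbedding fun w => g ⟪un w, d⟫
  rw [← this, ← hR]
  simp only [un, LinearIsometryEquiv.norm_map, ← map_smul, LinearIsometryEquiv.inner_map_map]

theorem pair (ms : MS) {a b : V} (ha : ‖a‖ = 1) (hb : ‖b‖ = 1) (hab : ⟪a, b⟫ = 0) :
    2 * ∫ w, |⟪un w, a⟫| * ⟪un w, b⟫ ^ 2 ∂mS ≤ ∫ w, |⟪un w, a⟫| ^ 3 ∂mS := by
  set M : V → ℝ := fun c => ∫ w, |⟪un w, c⟫| ^ 3 ∂mS with hM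
  set J := ∫ w, |⟪un w, a⟫| * ⟪un w, b⟫ ^ 2 ∂mS with hJ
  have M0 : 0 ≤ M a := integral_nonneg fun w => by positivity
  have h2 : ∀ (c : V) (u : ℝ), 0 ≤ u → ‖c‖ ^ 2 = 1 + u →
      M c ≤ (1 + 3 / 2 * u + u ^ 2) * M a := fun c u hu hc => by
    have e : M c = ‖c‖ ^ 3 * M a := by
      simp only [hM]
      rw [rot ms (fun t => |t| ^ 3) (c := c) (d := ‖c‖ • a)
        (by rw [norm_smul, norm_norm, ha, mul_one])]
      simp only [real_inner_smul_right, abs_mul, abs_norm, mul_pow, integral_const_mul]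
    rw [e]
    exact mul_le_mul_of_nonneg_right (cube_le (norm_nonneg _) hu hc) M0
  have h3 : ∀ d : ℝ, 0 < d → 2 * J ≤ M a + d ^ 2 * M a := fun d hd => by
    have n1 : ‖d • b‖ ^ 2 = d ^ 2 := by rw [norm_smul, hb, mul_one, norm_eq_abs, sq_abs]
    have e1 := h2 (a + d • b) (d ^ 2) (by positivity)
      (by rw [norm_add_sq_real, ha, n1, real_inner_smul_right, hab]; ring)
    have e2 := h2 (a - d • b) (d ^ 2) (by positivity)
      (by rw [norm_sub_sq_real, ha, n1, real_inner_smul_right, hab]; ring)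
    have e5 : 2 * M a + 6 * d ^ 2 * J ≤ M (a + d • b) + M (a - d • b) := by
      simp only [hM, hJ]
      rw [← integral_add (int3 ms _) (int3 ms _), ← integral_const_mul, ← integral_const_mul,
        ← integral_add ((int3 ms _).const_mul _) ((int12 ms _ _).const_mul _)]
      refine integral_mono (((int3 ms _).const_mul _).add ((int12 ms _ _).const_mul _))
        ((int3 ms _).add (int3 ms _)) fun w => ?_
      have := cube ⟪un w, a⟫ (d * ⟪un w, b⟫)
      simp only [inner_add_right, inner_sub_right, real_inner_smul_right]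
      linarith
    have d2 : 0 < d ^ 2 := by positivity
    have e6 : d ^ 2 * (6 * J) ≤ d ^ 2 * (3 * M a + 2 * d ^ 2 * M a) := by linarith
    have e7 := le_of_mul_le_mul_left e6 d2
    nlinarith [mul_nonneg d2.le M0]
  change 2 * J ≤ M a
  refine le_of_forall_pos_le_add fun ε hε => ?_
  have k := h3 √(ε / (M a + 1)) (sqrt_pos.2 (by positivity))
  rw [sq_sqrt (by positivity)] at k
  have k2 : ε / (M a + 1) * M a ≤ ε := by
    rw [div_mul_eq_mul_div, div_le_iff₀ (by positivity)]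
    nlinarith
  linarith

/-- The third absolute moment against the first. -/
theorem mom3 (ms : MS) {e : V} (he : ‖e‖ = 1) :
    2 * ∫ w, |⟪un w, e⟫| ∂mS ≤ (dm + 1) * ∫ w, |⟪un w, e⟫| ^ 3 ∂mS := by
  let f := EuclideanSpace.basisFun (Fin dm) ℝ
  let i : Fin dm := ⟨0, Nat.succ_pos _⟩
  have hi : ‖e‖ = ‖f i‖ := he.trans (f.orthonormal.1 i).symm
  rw [rot ms (fun t => |t|) hi, rot ms (fun t => |t| ^ 3) hi]
  have h4 : ∑ j, ∫ w, |⟪un w, f i⟫| * ⟪un w, f j⟫ ^ 2 ∂mS = ∫ w, |⟪un w, f i⟫| ∂mS := by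
    rw [← integral_finsetSum _ fun j _ => int12 ms _ _]
    refine integral_congr_ae ?_
    filter_upwards [un_norm ms] with w hw
    rw [← Finset.mul_sum, f.sum_sq_inner_left, hw]
    ring
  have h5 : ∫ w, |⟪un w, f i⟫| * ⟪un w, f i⟫ ^ 2 ∂mS = ∫ w, |⟪un w, f i⟫| ^ 3 ∂mS :=
    integral_congr_ae (.of_forall fun w => by
      simp only []
      rw [← sq_abs]
      ring)
  have h6 := Finset.sum_le_card_nsmul (Finset.univ.erase i)
    (fun j => ∫ w, |⟪un w, f i⟫| * ⟪un w, f j⟫ ^ 2 ∂mS) ((∫ w, |⟪un w, f i⟫| ^ 3 ∂mS) / 2)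
    fun j hj => by
      have := pair ms (f.orthonormal.1 i) (f.orthonormal.1 j)
        (f.orthonormal.2 (Finset.ne_of_mem_erase hj).symm)
      linarith
  rw [Finset.card_erase_of_mem (Finset.mem_univ i), Finset.card_univ, Fintype.card_fin,
    nsmul_eq_mul, Nat.cast_pred (Nat.succ_pos _)] at h6
  rw [← Finset.add_sum_erase _ _ (Finset.mem_univ i), h5] at h4
  linarith

/-- The first absolute moment is at least one. -/
theorem mom1 (ms : MS) {e : V} (he : ‖e‖ = 1) : 1 ≤ ∫ w, |⟪un w, e⟫| ∂mS := by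
  have e1 := ms.iso e e
  rw [real_inner_self_eq_norm_sq, he, one_pow] at e1
  rw [← e1]
  refine integral_mono_of_nonneg (.of_forall fun w => mul_self_nonneg _) (int1 ms e)
    (.of_forall fun w => ?_)
  have h := abs_le w e
  rw [he] at h
  simp only []
  rw [← abs_mul_abs_self]
  exact mul_le_of_le_one_left (abs_nonneg _) h

/-- The mean of `|s| ^ 3 - k |s|` is positive when `k (n + 1) < 2`. -/
theorem mom (ms : MS) {e : V} (he : ‖e‖ = 1) {k : ℝ} (hk : k * (dm + 1) < 2) :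
    0 < ∫ w, (|⟪un w, e⟫| ^ 3 - k * |⟪un w, e⟫|) ∂mS := by
  rw [integral_sub (int3 ms e) ((int1 ms e).const_mul k), integral_const_mul]
  have h1 := mom1 ms he
  have h3 := mom3 ms he
  have hd : (0 : ℝ) < dm + 1 := by positivity
  refine pos_of_mul_pos_left (b := (dm : ℝ) + 1) ?_ hd.le
  nlinarith [mul_pos (sub_pos.2 hk) (one_pos.trans_le h1)]

end Pool.Agent.MP_3ee8cb_gt.DRB
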