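import Pool.Agent.MP_3ee8cb_gt.DRB.T0

/-! Constants for the pinching `1 + 36 / (5 n)`, dimensions 3 to 12. -/

namespace Pool.Agent.MP_3ee8cb_gt.DRB.T7

theorem p3 : Pk 3 (36 / (5 * 3)) := by
  refine mk (σ := (133 / 500)) (e := (19999 / 10000)) (F₀ := (1659 / 1000)) (F₁ := (83 / 50))
    (a := (23 / 20)) (μ := (4999 / 10000)) (c := (41 / 25)) (y := (1 / 2)) (r := (177 / 250))
    (t := (9671 / 50000)) (u := (37 / 50)) 0 1 (by norm_num) (by norm_num) (by norm_num)
    (by norm_num) fun x h0 h1 => ?_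
  linarith [b5 h0 h1]

theorem p4 : Pk 4 (36 / (5 * 4)) := by
  refine mk (σ := (1 / 5)) (e := (13333 / 10000)) (F₀ := (83 / 50)) (F₁ := (1661 / 1000))
    (a := (33 / 25)) (μ := (3999 / 10000)) (c := (99 / 50)) (y := (81 / 200)) (r := (319 / 500))
    (t := (4699 / 20000)) (u := (89 / 100)) 0 1 (by norm_num) (by norm_num) (by norm_num)
    (by norm_num) fun x h0 h1 => ?_
  linarith [b5 h0 h1]

theorem p5 : Pk 5 (36 / (5 * 5)) := by
  refine mk (σ := (4 / 25)) (e := (9999 / 10000)) (F₀ := (17 / 10)) (F₁ := (1701 / 1000))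
    (a := (36 / 25)) (μ := (3333 / 10000)) (c := (54 / 25)) (y := (79 / 200)) (r := (63 / 100))
    (t := (24091 / 100000)) (u := (97 / 100)) 0 1 (by norm_num) (by norm_num) (by norm_num)
    (by norm_num) fun x h0 h1 => ?_
  linarith [b5 h0 h1]

theorem p6 : Pk 6 (36 / (5 * 6)) := by
  refine mk (σ := (183 / 1000)) (e := (7999 / 10000)) (F₀ := (351 / 200)) (F₁ := (439 / 250))
    (a := (7 / 5)) (μ := (2857 / 10000)) (c := (11 / 5)) (y := (81 / 200)) (r := (319 / 500))
    (t := (4013 / 20000)) (u := (91 / 100)) 0 1 (by norm_num) (by norm_num) (by norm_num)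
    (by norm_num) fun x h0 h1 => ?_
  rcases le_total x (14 / 25) with k | k0
  · linarith [b5 h0 k]
  linarith [b5 k0 h1]

theorem p7 : Pk 7 (36 / (5 * 7)) := by
  refine mk (σ := (77 / 500)) (e := (3333 / 5000)) (F₀ := (909 / 500)) (F₁ := (1819 / 1000))
    (a := (37 / 25)) (μ := (2499 / 10000)) (c := (12 / 5)) (y := (77 / 200)) (r := (311 / 500))
    (t := (19477 / 100000)) (u := (24 / 25)) 0 1 (by norm_num) (by norm_num) (by norm_num)
    (by norm_num) fun x h0 h1 => ?_
  rcases le_total x (9 / 20) with k | k0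
  · linarith [b5 h0 k]
  linarith [b5 k0 h1]

theorem p8 : Pk 8 (36 / (5 * 8)) := by
  refine mk (σ := (71 / 500)) (e := (2857 / 5000)) (F₀ := (1879 / 1000)) (F₁ := (47 / 25))
    (a := (39 / 25)) (μ := (1111 / 5000)) (c := (62 / 25)) (y := (37 / 100)) (r := (61 / 100))
    (t := (18111 / 100000)) (u := (24 / 25)) 0 1 (by norm_num) (by norm_num) (by norm_num)
    (by norm_num) fun x h0 h1 => ?_
  rcases le_total x (41 / 100) with k | k0
  · linarith [b5 h0 k]
  linarith [b5 k0 h1]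

theorem p9 : Pk 9 (36 / (5 * 9)) := by
  refine mk (σ := (13 / 100)) (e := (4999 / 10000)) (F₀ := (97 / 50)) (F₁ := (1941 / 1000))
    (a := (161 / 100)) (μ := (1999 / 10000)) (c := (133 / 50)) (y := (7 / 20)) (r := (74 / 125))
    (t := (16993 / 100000)) (u := (97 / 100)) 0 1 (by norm_num) (by norm_num) (by norm_num)
    (by norm_num) fun x h0 h1 => ?_
  rcases le_total x (37 / 100) with k | k0
  · linarith [b5 h0 k]
  linarith [b5 k0 h1]

theorem p10 : Pk 10 (36 / (5 * 10)) := by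
  refine mk (σ := (61 / 500)) (e := (1111 / 2500)) (F₀ := (1999 / 1000)) (F₁ := 2)
    (a := (169 / 100)) (μ := (909 / 5000)) (c := (137 / 50)) (y := (67 / 200)) (r := (29 / 50))
    (t := (317 / 2000)) (u := (97 / 100)) 0 1 (by norm_num) (by norm_num) (by norm_num)
    (by norm_num) fun x h0 h1 => ?_
  rcases le_total x (9 / 25) with k | k0
  · linarith [b5 h0 k]
  linarith [b5 k0 h1]

theorem p11 : Pk 11 (36 / (5 * 11)) := by
  refine mk (σ := (14 / 125)) (e := (3999 / 10000)) (F₀ := (2061 / 1000)) (F₁ := (1031 / 500))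
    (a := (171 / 100)) (μ := (833 / 5000)) (c := (151 / 50)) (y := (31 / 100)) (r := (279 / 500))
    (t := (14953 / 100000)) (u := (49 / 50)) 0 2 (by norm_num) (by norm_num) (by norm_num)
    (by norm_num) fun x h0 h1 => ?_
  rcases le_total x (33 / 100) with k | k0
  · linarith [b5 h0 k]
  linarith [b5 k0 h1]

theorem p12 : Pk 12 (36 / (5 * 12)) := by
  refine mk (σ := (53 / 500)) (e := (909 / 2500)) (F₀ := (1059 / 500)) (F₁ := (2119 / 1000))
    (a := (177 / 100)) (μ := (769 / 5000)) (c := (79 / 25)) (y := (59 / 200)) (r := (68 / 125))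
    (t := (14031 / 100000)) (u := (49 / 50)) 0 2 (by norm_num) (by norm_num) (by norm_num)
    (by norm_num) fun x h0 h1 => ?_
  rcases le_total x (8 / 25) with k | k0
  · linarith [b5 h0 k]
  linarith [b5 k0 h1]

end Pool.Agent.MP_3ee8cb_gt.DRB.T7
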