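import Pool.Agent.MP_3ee8cb_gt.DRB.T0

/-! Constants for the pinching `1 + 36 / (5 n)`, dimensions 13 to 22. -/

namespace Pool.Agent.MP_3ee8cb_gt.DRB.T7

theorem p13 : Pk 13 (36 / (5 * 13)) := by
  refine mk (σ := (101 / 1000)) (e := (3333 / 10000)) (F₀ := (2173 / 1000)) (F₁ := (1087 / 500))
    (a := (181 / 100)) (μ := (357 / 2500)) (c := (167 / 50)) (y := (7 / 25)) (r := (53 / 100))
    (t := (2639 / 20000)) (u := (49 / 50)) 0 2 (by norm_num) (by norm_num) (by norm_num)
    (by norm_num) fun x h0 h1 => ?_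
  rcases le_total x (31 / 100) with k | k0
  · linarith [b5 h0 k]
  linarith [b5 k0 h1]

theorem p14 : Pk 14 (36 / (5 * 14)) := by
  refine mk (σ := (93 / 1000)) (e := (769 / 2500)) (F₀ := (2233 / 1000)) (F₁ := (1117 / 500))
    (a := (37 / 20)) (μ := (1333 / 10000)) (c := (179 / 50)) (y := (53 / 200)) (r := (129 / 250))
    (t := (63 / 500)) (u := (99 / 100)) 0 2 (by norm_num) (by norm_num) (by norm_num)
    (by norm_num) fun x h0 h1 => ?_
  rcases le_total x (31 / 100) with k | k0
  · linarith [b5 h0 k]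
  linarith [b5 k0 h1]

theorem p15 : Pk 15 (36 / (5 * 15)) := by
  refine mk (σ := (89 / 1000)) (e := (2857 / 10000)) (F₀ := (2287 / 1000)) (F₁ := (286 / 125))
    (a := (189 / 100)) (μ := (1249 / 10000)) (c := (19 / 5)) (y := (1 / 4)) (r := (1 / 2))
    (t := (5951 / 50000)) (u := (99 / 100)) 0 2 (by norm_num) (by norm_num) (by norm_num)
    (by norm_num) fun x h0 h1 => ?_
  rcases le_total x (31 / 100) with k | k0
  · linarith [b5 h0 k]
  linarith [b5 k0 h1]

theorem p16 : Pk 16 (36 / (5 * 16)) := by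
  refine mk (σ := (43 / 500)) (e := (1333 / 5000)) (F₀ := (292 / 125)) (F₁ := (2337 / 1000))
    (a := (48 / 25)) (μ := (147 / 1250)) (c := (199 / 50)) (y := (6 / 25)) (r := (49 / 100))
    (t := (2821 / 25000)) (u := (49 / 50)) 0 2 (by norm_num) (by norm_num) (by norm_num)
    (by norm_num) fun x h0 h1 => ?_
  rcases le_total x (8 / 25) with k | k0
  · linarith [b5 h0 k]
  linarith [b5 k0 h1]

theorem p17 : Pk 17 (36 / (5 * 17)) := by
  refine mk (σ := (2 / 25)) (e := (2499 / 10000)) (F₀ := (1197 / 500)) (F₁ := (479 / 200))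
    (a := (49 / 25)) (μ := (1111 / 10000)) (c := (106 / 25)) (y := (9 / 40)) (r := (119 / 250))
    (t := (2707 / 25000)) (u := (99 / 100)) 0 2 (by norm_num) (by norm_num) (by norm_num)
    (by norm_num) fun x h0 h1 => ?_
  rcases le_total x (17 / 50) with k | k0
  · linarith [b5 h0 k]
  linarith [b5 k0 h1]

theorem p18 : Pk 18 (36 / (5 * 18)) := by
  refine mk (σ := (77 / 1000)) (e := (147 / 625)) (F₀ := (611 / 250)) (F₁ := (489 / 200))
    (a := (199 / 100)) (μ := (263 / 2500)) (c := (223 / 50)) (y := (43 / 200)) (r := (58 / 125))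
    (t := (2063 / 20000)) (u := (99 / 100)) 0 2 (by norm_num) (by norm_num) (by norm_num)
    (by norm_num) fun x h0 h1 => ?_
  rcases le_total x (17 / 50) with k | k0
  · linarith [b5 h0 k]
  linarith [b5 k0 h1]

theorem p19 : Pk 19 (36 / (5 * 19)) := by
  refine mk (σ := (3 / 40)) (e := (1111 / 5000)) (F₀ := (249 / 100)) (F₁ := (2491 / 1000))
    (a := (101 / 50)) (μ := (999 / 10000)) (c := (233 / 50)) (y := (41 / 200)) (r := (227 / 500))
    (t := (307 / 3125)) (u := (49 / 50)) 0 2 (by norm_num) (by norm_num) (by norm_num)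
    (by norm_num) fun x h0 h1 => ?_
  rcases le_total x (33 / 100) with k | k0
  · linarith [b5 h0 k]
  linarith [b5 k0 h1]

theorem p20 : Pk 20 (36 / (5 * 20)) := by
  refine mk (σ := (73 / 1000)) (e := (421 / 2000)) (F₀ := (507 / 200)) (F₁ := (317 / 125))
    (a := (41 / 20)) (μ := (119 / 1250)) (c := (241 / 50)) (y := (1 / 5)) (r := (56 / 125))
    (t := (1173 / 12500)) (u := (97 / 100)) 0 2 (by norm_num) (by norm_num) (by norm_num)
    (by norm_num) fun x h0 h1 => ?_
  rcases le_total x (33 / 100) with k | k0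
  · linarith [b5 h0 k]
  linarith [b5 k0 h1]

theorem p21 : Pk 21 (36 / (5 * 21)) := by
  refine mk (σ := (17 / 250)) (e := (1999 / 10000)) (F₀ := (324 / 125)) (F₁ := (2593 / 1000))
    (a := (209 / 100)) (μ := (909 / 10000)) (c := (51 / 10)) (y := (19 / 100)) (r := (109 / 250))
    (t := (2271 / 25000)) (u := (99 / 100)) 0 2 (by norm_num) (by norm_num) (by norm_num)
    (by norm_num) fun x h0 h1 => ?_
  rcases le_total x (8 / 25) with k | k0
  · linarith [b5 h0 k]
  linarith [b5 k0 h1]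

theorem p22 : Pk 22 (36 / (5 * 22)) := by
  refine mk (σ := (33 / 500)) (e := (119 / 625)) (F₀ := (2637 / 1000)) (F₁ := (1319 / 500))
    (a := (53 / 25)) (μ := (869 / 10000)) (c := (134 / 25)) (y := (9 / 50)) (r := (213 / 500))
    (t := (4359 / 50000)) (u := (49 / 50)) 0 2 (by norm_num) (by norm_num) (by norm_num)
    (by norm_num) fun x h0 h1 => ?_
  rcases le_total x (8 / 25) with k | k0
  · linarith [b5 h0 k]
  linarith [b5 k0 h1]

end Pool.Agent.MP_3ee8cb_gt.DRB.T7
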