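import Pool.Agent.MP_3ee8cb_gt.DRB.T0

/-! Constants for the pinching `1 + 36 / (5 n)`, dimensions 23 to 31. -/

namespace Pool.Agent.MP_3ee8cb_gt.DRB.T7

theorem p23 : Pk 23 (36 / (5 * 23)) := by
  refine mk (σ := (8 / 125)) (e := (909 / 5000)) (F₀ := (1341 / 500)) (F₁ := (2683 / 1000))
    (a := (43 / 20)) (μ := (833 / 10000)) (c := (277 / 50)) (y := (7 / 40)) (r := (21 / 50))
    (t := (419 / 5000)) (u := (49 / 50)) 0 2 (by norm_num) (by norm_num) (by norm_num)
    (by norm_num) fun x h0 h1 => ?_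
  rcases le_total x (8 / 25) with k | k0
  · linarith [b5 h0 k]
  linarith [b5 k0 h1]

theorem p24 : Pk 24 (36 / (5 * 24)) := by
  refine mk (σ := (61 / 1000)) (e := (1739 / 10000)) (F₀ := (683 / 250)) (F₁ := (2733 / 1000))
    (a := (109 / 50)) (μ := (799 / 10000)) (c := (293 / 50)) (y := (33 / 200)) (r := (51 / 125))
    (t := (1013 / 12500)) (u := (49 / 50)) 0 2 (by norm_num) (by norm_num) (by norm_num)
    (by norm_num) fun x h0 h1 => ?_
  rcases le_total x (8 / 25) with k | k0
  · linarith [b5 h0 k]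
  linarith [b5 k0 h1]

theorem p25 : Pk 25 (36 / (5 * 25)) := by
  refine mk (σ := (29 / 500)) (e := (833 / 5000)) (F₀ := (1391 / 500)) (F₁ := (2783 / 1000))
    (a := (221 / 100)) (μ := (769 / 10000)) (c := (152 / 25)) (y := (4 / 25)) (r := (2 / 5))
    (t := (393 / 5000)) (u := (99 / 100)) 0 2 (by norm_num) (by norm_num) (by norm_num)
    (by norm_num) fun x h0 h1 => ?_
  rcases le_total x (31 / 100) with k | k0
  · linarith [b5 h0 k]
  linarith [b5 k0 h1]

theorem p26 : Pk 26 (36 / (5 * 26)) := by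
  refine mk (σ := (29 / 500)) (e := (1599 / 10000)) (F₀ := (563 / 200)) (F₁ := (352 / 125))
    (a := (223 / 100)) (μ := (37 / 500)) (c := (313 / 50)) (y := (31 / 200)) (r := (197 / 500))
    (t := (7541 / 100000)) (u := (49 / 50)) 0 2 (by norm_num) (by norm_num) (by norm_num)
    (by norm_num) fun x h0 h1 => ?_
  rcases le_total x (31 / 100) with k | k0
  · linarith [b5 h0 k]
  linarith [b5 k0 h1]

theorem p27 : Pk 27 (36 / (5 * 27)) := by
  refine mk (σ := (11 / 200)) (e := (769 / 5000)) (F₀ := (2867 / 1000)) (F₁ := (717 / 250))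
    (a := (113 / 50)) (μ := (357 / 5000)) (c := (13 / 2)) (y := (3 / 20)) (r := (97 / 250))
    (t := (3663 / 50000)) (u := (49 / 50)) 0 3 (by norm_num) (by norm_num) (by norm_num)
    (by norm_num) fun x h0 h1 => ?_
  rcases le_total x (31 / 100) with k | k0
  · linarith [b5 h0 k]
  linarith [b5 k0 h1]

theorem p28 : Pk 28 (36 / (5 * 28)) := by
  refine mk (σ := (27 / 500)) (e := (1481 / 10000)) (F₀ := (581 / 200)) (F₁ := (1453 / 500))
    (a := (229 / 100)) (μ := (689 / 10000)) (c := (168 / 25)) (y := (29 / 200)) (r := (191 / 500))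
    (t := (7081 / 100000)) (u := (49 / 50)) 0 3 (by norm_num) (by norm_num) (by norm_num)
    (by norm_num) fun x h0 h1 => ?_
  rcases le_total x (8 / 25) with k | k0
  · linarith [b5 h0 k]
  linarith [b5 k0 h1]

theorem p29 : Pk 29 (36 / (5 * 29)) := by
  refine mk (σ := (51 / 1000)) (e := (357 / 2500)) (F₀ := (2957 / 1000)) (F₁ := (1479 / 500))
    (a := (58 / 25)) (μ := (333 / 5000)) (c := 7) (y := (7 / 50)) (r := (47 / 125))
    (t := (6911 / 100000)) (u := (99 / 100)) 0 3 (by norm_num) (by norm_num) (by norm_num)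
    (by norm_num) fun x h0 h1 => ?_
  rcases le_total x (8 / 25) with k | k0
  · linarith [b5 h0 k]
  linarith [b5 k0 h1]

theorem p30 : Pk 30 (36 / (5 * 30)) := by
  refine mk (σ := (1 / 20)) (e := (1379 / 10000)) (F₀ := (749 / 250)) (F₁ := (2997 / 1000))
    (a := (117 / 50)) (μ := (129 / 2000)) (c := (181 / 25)) (y := (27 / 200)) (r := (46 / 125))
    (t := (669 / 10000)) (u := (49 / 50)) 0 3 (by norm_num) (by norm_num) (by norm_num)
    (by norm_num) fun x h0 h1 => ?_
  rcases le_total x (8 / 25) with k | k0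
  · linarith [b5 h0 k]
  linarith [b5 k0 h1]

theorem p31 : Pk 31 (36 / (5 * 31)) := by
  refine mk (σ := (6 / 125)) (e := (1333 / 10000)) (F₀ := (3043 / 1000)) (F₁ := (761 / 250))
    (a := (237 / 100)) (μ := (39 / 625)) (c := (188 / 25)) (y := (13 / 100)) (r := (181 / 500))
    (t := (651 / 10000)) (u := (99 / 100)) 0 3 (by norm_num) (by norm_num) (by norm_num)
    (by norm_num) fun x h0 h1 => ?_
  rcases le_total x (33 / 100) with k | k0
  · linarith [b5 h0 k]
  linarith [b5 k0 h1]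

end Pool.Agent.MP_3ee8cb_gt.DRB.T7
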