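import Pool.Agent.MP_3ee8cb_gt.DRB.Sharp
import Pool.Agent.MP_3ee8cb_gt.DRB.T1
import Pool.Agent.MP_3ee8cb_gt.DRB.T2
import Pool.Agent.MP_3ee8cb_gt.DRB.T3
import Pool.Agent.MP_3ee8cb_gt.DR.Top3

/-! Rigidity under the pinching `1 + max (36 / (5 n)) (129 / (100 √n))`. -/

namespace Pool.Agent.MP_3ee8cb_gt.DRB

open DN (Dim dm)

open T7 in
theorem table {n : ℕ} (h3 : 3 ≤ n) (h : n ≤ 31) : T7.Pk n (36 / (5 * (n : ℝ))) := by
  interval_cases n
  exacts [p3, p4, p5, p6, p7, p8, p9, p10, p11, p12, p13, p14, p15, p16, p17, p18, p19, p20, p21,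
    p22, p23, p24, p25, p26, p27, p28, p29, p30, p31]

theorem final [Dim] :
    SLN.MainZ ((1 + max (36 / (5 * (dm : ℝ))) (129 / (100 * √(dm : ℝ)))) ^ 2 - 1) := by
  have d3 : 3 ≤ dm := Nat.le_add_left 3 _
  have d0 : (0 : ℝ) < dm := by exact_mod_cast (by omega : 0 < dm)
  rcases le_or_gt dm 31 with k | k
  · rcases le_total (36 / (5 * (dm : ℝ))) (129 / (100 * √(dm : ℝ))) with l | l
    · have := DR.main3
      rw [max_eq_right (le_trans _ l)] at this
      · rwa [max_eq_right l]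
      · rw [div_le_div_iff₀ (by positivity) (by positivity)]
        linarith
    · rw [max_eq_left l]
      obtain ⟨σ, e, F₀, F₁, a, μ, s0, s1, e0, e4, f0, f2, f1, a0, mu, n1, n2⟩ := table d3 k
      exact sharp s0 s1 (by positivity) e0 e4 f0 f2 f1 a0 mu n1 n2
  · have k' : (32 : ℝ) ≤ dm := by exact_mod_cast k
    have r0 : 0 < √(dm : ℝ) := Real.sqrt_pos.2 d0
    have r1 : √(dm : ℝ) * √(dm : ℝ) = dm := Real.mul_self_sqrt d0.le
    have r2 : 28 / 5 ≤ √(dm : ℝ) := Real.le_sqrt_of_sq_le (by linarith)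
    have l : 36 / (5 * (dm : ℝ)) ≤ 129 / (100 * √(dm : ℝ)) := by
      rw [div_le_div_iff₀ (by positivity) (by positivity)]
      nlinarith [mul_le_mul_of_nonneg_left r2 r0.le]
    have := DR.main3
    rw [max_eq_right (le_trans _ l)] at this
    · rwa [max_eq_right l]
    · rw [div_le_div_iff₀ (by positivity) (by positivity)]
      linarith

end Pool.Agent.MP_3ee8cb_gt.DRB
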