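import Pool.Agent.MP_3ee8cb_gt.DRB.Spec
import Pool.Agent.MP_3ee8cb_gt.DQ.RINW

/-! The averaged field points inwards outside a bounded set. -/

namespace Pool.Agent.MP_3ee8cb_gt.DRB

open Set Filter Topology MeasureTheory Real
open scoped RealInnerProductSpace
open DN (Dim dm)

variable [Dim]

open DN DZ
open DQ (BH)

namespace INWx

theorem perp {n w r : V} (hn : ‖n‖ = 1) (hw : ‖w‖ = 1) (hr : ‖r‖ = 1) :
    (⟪r, w⟫ - ⟪n, r⟫ * ⟪w, n⟫) ^ 2 ≤ (1 - ⟪n, r⟫ ^ 2) * (1 - ⟪w, n⟫ ^ 2) := by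
  have k : ∀ a : V, ‖a‖ = 1 → ⟪a - ⟪n, a⟫ • n, a - ⟪n, a⟫ • n⟫ = 1 - ⟪n, a⟫ ^ 2 := fun a ha => by
    rw [real_inner_self_eq_norm_sq, norm_sub_sq_real, real_inner_smul_right, norm_smul, hn, ha,
      real_inner_comm n a, norm_eq_abs, mul_one, sq_abs]
    ring
  have h := real_inner_mul_inner_self_le (r - ⟪n, r⟫ • n) (w - ⟪n, w⟫ • n)
  rw [k r hr, k w hw, inner_sub_left, inner_sub_right, inner_sub_right, real_inner_smul_right,
    real_inner_smul_left, real_inner_smul_left, real_inner_smul_right,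
    real_inner_self_eq_norm_sq, hn, real_inner_comm n r, real_inner_comm w n] at h
  nlinarith

variable {m : MF} {lg : V × V → V} {dX : V → V → ℝ} {P : Type} [TopologicalSpace P] {A : Fam P}
  {σ F a μ : ℝ}

theorem half (bf : BF m lg dX A) (bh : BH A) (bs : BS A σ) (h0 : 0 ≤ σ) (hF : 0 < F)
    (n2 : Nu2 σ F a μ) {p : P} {z w : V} (hp : log F < A.β p z) (hw : ‖w‖ = 1)
    (hx : 0 < ⟪w, A.ν p z⟫) {w' : V} (e : w' = w - (2 * ⟪w, A.ν p z⟫) • A.ν p z)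
    (hw' : ‖w'‖ = 1) :
    a * (⟪w, A.ν p z⟫ ^ 2 - μ) ≤ us A σ (A.pr p) z w - us A σ (A.pr p) z w' := by
  have f0 : F ≤ exp (A.β p z) := ((log_lt_iff_lt_exp hF).1 hp).le
  obtain ⟨q, -, -, q3, q4⟩ := bs.max (A.pr p) z w hw
  obtain ⟨r, r1, r2, r3, -⟩ := bs.max (A.pr p) z w' hw'
  have n1 := (bf.isb p).unit z
  have n2' := (bf.isb r).unit z
  have x1 := real_inner_le_norm w (A.ν p z)
  have s1 := abs_real_inner_le_norm (A.ν p z) (A.ν r z)
  rw [hw, n1, mul_one] at x1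
  rw [n1, n2', mul_one] at s1
  have a1 := q4 p rfl
  have a2 := bh.gr2 p r z r1.symm
  have a3 := q4 r r1
  have e1 : ⟪A.ν r z, w'⟫ = ⟪A.ν r z, w⟫ - ⟪A.ν p z, A.ν r z⟫ * ⟪w, A.ν p z⟫ -
      ⟪A.ν p z, A.ν r z⟫ * ⟪w, A.ν p z⟫ := by
    rw [e, inner_sub_right, real_inner_smul_right, real_inner_comm (A.ν p z) (A.ν r z)]
    ring
  have f1 := exp_pos (A.β r z)
  rw [q3, r3]
  simp only [gs] at a1 a3 r2 ⊢
  rw [e1] at r2 ⊢
  rw [real_inner_comm w] at a1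
  refine n2 _ _ _ _ _ hx x1 ((sq_le_one_iff_abs_le_one _).2 s1) (perp n1 hw n2') f1 ?_ ?_ ?_
    ((mul_pos_iff_of_pos_left f1).1 r2)
  · refine le_trans ?_ a2
    have := (abs_le.1 s1).2
    gcongr
  · exact (mul_le_mul_of_nonneg_right f0 (by linarith)).trans a1
  · rwa [sub_add_cancel]

end INWx

open INWx

theorem sINW : SINW := by
  intro m lg dX P _ A bf bg bh ms mo ct σ F a μ h0 bs F0 F2 a0 mu n2 x
  have rt := ms.rot'
  have := ms.fin
  obtain ⟨q, q1, -⟩ := bg.onto x 0 (EuclideanSpace.single 0 1) (by simp)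
  obtain ⟨y, hy⟩ := ct x
  have yC : y ∈ A.C (log F) x := fun p hp => (le_log_iff_exp_le F0).2
    ((pow_le_pow_iff_left₀ (exp_pos _).le F0.le two_ne_zero).1 ((hy p hp).trans F2))
  refine ⟨y, log F + 1 + (log F + 1), fun z hz => (bf.yw.had.tri y (A.ft q) z).trans ?_,
    fun z hz => ?_⟩
  · refine add_le_add ?_ (bg.near q z _ (q1 ▸ hz))
    rw [bf.yw.had.rev, norm_neg, bf.yw.jac.norm]
    exact bg.near q y _ (q1 ▸ yC)
  obtain ⟨p, p1, p2⟩ : ∃ p, A.pr p = x ∧ log F < A.β p z := by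
    by_contra k
    exact hz fun p hp => not_lt.1 fun h => k ⟨p, hp, h⟩
  refine ⟨A.ν p z, ?_, DQ.INWx.back bf ((yC p p1).trans_lt p2)⟩
  subst p1
  have n1 := (bf.isb p).unit z
  obtain ⟨O, hO⟩ : ∃ O : V ≃ₗᵢ[ℝ] V, ∀ w, O w = w - (2 * ⟪w, A.ν p z⟫) • A.ν p z :=
    ⟨(ℝ ∙ A.ν p z)ᗮ.reflection, fun w => by
      rw [Submodule.reflection_orthogonal_apply, Submodule.reflection_singleton_apply, n1,
        real_inner_comm]
      simp only [RCLike.ofReal_real_eq_id, id_eq, one_pow, div_one, two_nsmul]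
      module⟩
  have o1 : ∀ w, ⟪O w, A.ν p z⟫ = -⟪w, A.ν p z⟫ := fun w => by
    rw [hO, inner_sub_left, real_inner_smul_left, real_inner_self_eq_norm_sq, n1]
    ring
  have o2 : ∀ w, w = O w - (2 * ⟪O w, A.ν p z⟫) • A.ν p z := fun w => by
    rw [o1, hO]
    module
  have both : ∀ w : V, ‖w‖ = 1 → a * |⟪w, A.ν p z⟫| ^ 3 - a * μ * |⟪w, A.ν p z⟫| ≤
      us A σ (A.pr p) z w * ⟪w, A.ν p z⟫ - us A σ (A.pr p) z (O w) * ⟪w, A.ν p z⟫ :=
    fun w hw => by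
      have hw' : ‖O w‖ = 1 := by rw [O.norm_map, hw]
      rcases lt_trichotomy 0 ⟪w, A.ν p z⟫ with h | h | h
      · have := mul_le_mul_of_nonneg_right (half bf bh bs h0 F0 n2 p2 hw h (hO w) hw') h.le
        rw [abs_of_pos h]
        linarith
      · rw [← h]
        simp
      · have k : 0 < ⟪O w, A.ν p z⟫ := by rw [o1]; linarith
        have := mul_le_mul_of_nonneg_right (half bf bh bs h0 F0 n2 p2 hw' k (o2 w) hw) k.le
        rw [o1] at this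
        rw [abs_of_neg h]
        linarith
  have oe : O (A.ν p z) = -A.ν p z := by
    rw [hO, real_inner_self_eq_norm_sq, n1]
    module
  obtain ⟨a1, a2⟩ := DZZ.av_inner rt (bs.cu (A.pr p)) z (A.ν p z) (.refl ℝ V)
  obtain ⟨b1, b2⟩ := DZZ.av_inner rt (bs.cu (A.pr p)) z (A.ν p z) O
  simp only [LinearIsometryEquiv.coe_refl, id_eq] at a1 a2
  rw [oe, inner_neg_right] at b2
  have i1 := rt.int (f := fun w => |⟪w, A.ν p z⟫|) (by fun_prop)
  have i2 := rt.int (f := fun w => ⟪w, A.ν p z⟫ ^ 2) (by fun_prop)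
  have i3 := rt.int (f := fun w => |⟪w, A.ν p z⟫| ^ 3) (by fun_prop)
  have c := integral_mono_ae ((i3.const_mul a).sub (i1.const_mul (a * μ))) (a1.sub b1)
    (rt.ne.mono fun w hw => both _ (DZZ.nrm hw))
  simp only [Pi.sub_apply] at c
  rw [integral_sub a1 b1, ← a2, ← b2, integral_sub (i3.const_mul a) (i1.const_mul (a * μ)),
    integral_const_mul, integral_const_mul] at c
  have c1 := integral_mono_ae i2 i1 (rt.ne.mono fun w hw => by
    have b := abs_real_inner_le_norm (‖w‖⁻¹ • w) (A.ν p z)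
    rw [DZZ.nrm hw, n1, one_mul] at b
    have := mul_le_of_le_one_right (abs_nonneg ⟪‖w‖⁻¹ • w, A.ν p z⟫) b
    rwa [← sq, sq_abs] at this)
  rw [rt.sq, n1, one_pow] at c1
  have d := mo _ n1
  change 0 < ⟪DZZ.av mS (fun q : V × V => us A σ (A.pr p) q.1 q.2) z, A.ν p z⟫
  simp only [un] at d
  generalize ∫ w, |⟪‖w‖⁻¹ • w, A.ν p z⟫| ∂mS = c₁ at c c1 d
  generalize ∫ w, |⟪‖w‖⁻¹ • w, A.ν p z⟫| ^ 3 ∂mS = c₃ at c d
  have d0 : (0 : ℝ) < dm + 1 := by positivity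
  have d1 : 0 < (dm + 1) * (c₃ - μ * c₁) := by
    nlinarith [mul_pos (sub_pos.2 mu) (by linarith : 0 < c₁)]
  have d2 := mul_pos a0 ((mul_pos_iff_of_pos_left d0).1 d1)
  linarith

end Pool.Agent.MP_3ee8cb_gt.DRB
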