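import Pool.Agent.MP_3ee8cb_gt.DRB.Spec

/-! The maximum is attained; the support function is Lipschitz in the base point. -/

namespace Pool.Agent.MP_3ee8cb_gt.DRB

open DN (Dim dm)

variable [Dim]

open Set Filter Topology Real DN DZ
open DQ (BH)
open scoped RealInnerProductSpace

namespace BSx

variable {m : MF} {lg : V × V → V} {dX : V → V → ℝ} {P : Type} [TopologicalSpace P] {A : Fam P}
  {σ : ℝ}

theorem cg (F : BF m lg dX A) (H : BH A) (σ : ℝ) :
    Continuous fun r : (V × V) × P => gs σ (A.β r.2) (A.ν r.2) (r.1.1, r.1.2) := by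
  have c : Continuous fun r : (V × V) × P => (r.2, r.1.1) :=
    continuous_snd.prodMk continuous_fst.fst
  exact (F.cont.comp c).rexp.mul (((H.cn.comp c).inner continuous_fst.snd).add continuous_const)

theorem mx (F : BF m lg dX A) (G : BG lg A) (H : BH A) (h0 : 0 ≤ σ) (x z w : V) (hw : ‖w‖ = 1) :
    ∃ p, A.pr p = x ∧ 0 < gs σ (A.β p) (A.ν p) (z, w) ∧
      sSup ((fun p => gs σ (A.β p) (A.ν p) (z, w)) '' {p | A.pr p = x}) =
        gs σ (A.β p) (A.ν p) (z, w) ∧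
      ∀ p', A.pr p' = x → gs σ (A.β p') (A.ν p') (z, w) ≤ gs σ (A.β p) (A.ν p) (z, w) := by
  obtain ⟨p₀, h₀, e₀⟩ := G.onto x z w hw
  have c : Continuous fun p => gs σ (A.β p) (A.ν p) (z, w) :=
    (cg F H σ).comp ((continuous_const (y := (z, w))).prodMk continuous_id)
  obtain ⟨p, hp, hm⟩ := (F.cpt x).exists_isMaxOn ⟨p₀, h₀⟩ c.continuousOn
  refine ⟨p, hp, lt_of_lt_of_le ?_ (hm h₀), IsGreatest.csSup_eq ⟨⟨p, hp, rfl⟩, ?_⟩,
    fun p' h' => hm h'⟩
  · change 0 < exp (A.β p₀ z) * (⟪A.ν p₀ z, w⟫ + σ)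
    rw [e₀, real_inner_self_eq_norm_sq, hw, one_pow]
    positivity
  · rintro _ ⟨p', h', rfl⟩
    exact hm h'

theorem half (hb : BF m lg dX A) (hh : BH A) (hs : BS A σ) (x x' z w : V) (hw : ‖w‖ = 1) {d : ℝ}
    (hd : ∀ p p' k, A.pr p = x → A.pr p' = x' → (∀ z, A.β p' z = A.β p z + k) → |k| ≤ d) :
    us A σ x z w - us A σ x' z w ≤ d := by
  obtain ⟨p, hp, h0, e, -⟩ := hs.max x z w hw
  obtain ⟨q, -, -, e', hq⟩ := hs.max x' z w hw
  obtain ⟨p', k, hp', hk⟩ := hb.mov p x'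
  have h1 := hq p' hp'
  have sh : gs σ (A.β p') (A.ν p') (z, w) = exp k * gs σ (A.β p) (A.ν p) (z, w) := by
    rw [gs, gs, hk, hh.nu p p' k hk, exp_add]
    ring
  rw [sh] at h1
  have h2 := log_le_log (mul_pos (exp_pos k) h0) h1
  rw [log_mul (exp_pos k).ne' h0.ne', log_exp] at h2
  have := abs_le.1 (hd p p' k hp hp' hk)
  rw [e, e']
  linarith [this.1]

end BSx

theorem sBS : SBS := by
  intro m lg dX P _ A F G H σ h0
  refine ⟨fun x z w hw => ?_, fun x => ?_⟩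
  · obtain ⟨p, h1, h2, h3, h4⟩ := BSx.mx F G H h0 x z w hw
    exact ⟨p, h1, h2, congrArg log h3, h4⟩
  · have c := (F.cpt x).continuous_sSup
      (f := fun (q : V × V) p => gs σ (A.β p) (A.ν p) (q.1, q.2)) (BSx.cg F H σ)
    refine c.continuousOn.log fun q hq => ?_
    obtain ⟨p, -, h2, h3, -⟩ := BSx.mx F G H h0 x q.1 q.2 hq
    exact (h2.trans_eq h3.symm).ne'

theorem sLX : SLX := by
  intro m lg dX P _ A hb _ hh σ hs x x' z w hw
  have h1 := BSx.half hb hh hs x x' z w hw (d := dX x x') fun p p' k hp hp' hk => by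
    rw [← hp, ← hp']
    exact hb.lip p p' k hk
  have h2 := BSx.half hb hh hs x' x z w hw (d := dX x x') fun p p' k hp hp' hk => by
    have := hb.lip p' p (-k) fun z => by rw [hk]; ring
    rwa [abs_neg, hp, hp'] at this
  exact abs_le.2 ⟨by linarith, h1⟩

end Pool.Agent.MP_3ee8cb_gt.DRB
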