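import Pool.Agent.MP_3ee8cb_gt.DRB.Spec

/-! A point where all functions of a fibre are small. -/

namespace Pool.Agent.MP_3ee8cb_gt.DRB

open DN (Dim dm)

variable [Dim]

open Set Real DN DZ
open DQ (BH)
open scoped RealInnerProductSpace

namespace CTRx

omit [Dim] in
theorem alg {f M E I S : ℝ} (hM : 0 < M) (hE : 1 ≤ E) (hI : E * I = 1) (h0 : E ^ 2 = M ^ 2 - 1)
    (h1 : f * ((E + I) / 2 + S * ((E - I) / 2)) ≤ M) (h2 : f * (M * I) * (1 - S) ≤ 2) :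
    f * M ≤ 2 * E := by
  have E0 : 0 < E := by linarith
  have I1 : I ≤ E := by nlinarith
  have k1 : f * M * (1 - S) ≤ 2 * E := by
    have := mul_le_mul_of_nonneg_right h2 E0.le
    have e : f * (M * I) * (1 - S) * E = f * M * (1 - S) * (E * I) := by ring
    rwa [e, hI, mul_one] at this
  have k2 := mul_le_mul_of_nonneg_right k1 (sub_nonneg.2 I1)
  have k3 := mul_le_mul_of_nonneg_right h1 hM.le
  refine le_of_mul_le_mul_right ?_ E0
  nlinarith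

variable {m : MF} {lg : V × V → V} {dX : V → V → ℝ} {P : Type} [TopologicalSpace P] {A : Fam P}

theorem step (B : BF m lg dX A) (H : BH A) {x z : V} {q : P} (hq : A.pr q = x) {c : ℝ}
    (hc : 2 ≤ c) (h : ∀ p, A.pr p = x → exp (A.β p z) ^ 2 ≤ c) :
    ∃ y, ∀ p, A.pr p = x → exp (A.β p y) ^ 2 ≤ 4 * (1 - 1 / c) := by
  obtain ⟨p₀, h0, hm⟩ := (B.cpt x).exists_isMaxOn (f := fun p => A.β p z) ⟨q, hq⟩
    (B.cont.comp (continuous_id.prodMk continuous_const)).continuousOn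
  have le : ∀ p, A.pr p = x → exp (A.β p z) ≤ exp (A.β p₀ z) := fun p hp => exp_le_exp.2 (hm hp)
  have c2 : 1 / c ≤ 1 / 2 := one_div_le_one_div_of_le two_pos hc
  obtain ⟨M, hM⟩ : ∃ M, M = exp (A.β p₀ z) := ⟨_, rfl⟩
  have M0 : 0 < M := hM ▸ exp_pos _
  have Mc : M ^ 2 ≤ c := hM ▸ h p₀ h0
  rw [← hM] at le
  rcases le_or_gt (M ^ 2) 2 with k | k
  · exact ⟨z, fun p hp => (pow_le_pow_left₀ (exp_pos _).le (le p hp) 2).trans (by linarith)⟩
  obtain ⟨r, hr⟩ : ∃ r, r = log (M ^ 2 - 1) / 2 := ⟨_, rfl⟩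
  have e2 : exp r ^ 2 = M ^ 2 - 1 := by
    rw [sq, ← exp_add, hr, add_halves, exp_log (by linarith)]
  have e1 : 1 ≤ exp r := by nlinarith [exp_pos r]
  have eI : exp r * exp (-r) = 1 := by rw [← exp_add, add_neg_cancel, exp_zero]
  refine ⟨(m.Z r (z, A.ν p₀ z)).1, fun p hp => ?_⟩
  have g := H.gr2 p p₀ (m.Z r (z, A.ν p₀ z)).1 (hp.trans h0.symm)
  have l := (B.isb p).lb (m.Z r (z, A.ν p₀ z)).1 _ (-r) ((B.isb p₀).unit (m.Z r (z, A.ν p₀ z)).1)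
  have b : (m.Z (-r) ((m.Z r (z, A.ν p₀ z)).1, A.ν p₀ (m.Z r (z, A.ν p₀ z)).1)).1 = z := by
    rw [(B.b1 p₀).par, Prod.mk.eta, ← B.yw.ok.add, neg_add_cancel, B.yw.ok.zero]
  rw [b, cosh_neg, sinh_neg, cosh_eq, sinh_eq] at l
  rw [(B.isb p₀).ray, sub_eq_add_neg, exp_add, ← hM] at g
  have a := alg M0 e1 eI e2 (by linarith [le p hp]) g
  have f0 := exp_pos (A.β p (m.Z r (z, A.ν p₀ z)).1)
  have a2 := pow_le_pow_left₀ (mul_pos f0 M0).le a 2
  have M2 : 0 < M ^ 2 := by positivity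
  have a3 : 1 / c * M ^ 2 ≤ 1 := by
    rw [one_div_mul_eq_div, div_le_one (by linarith)]
    exact Mc
  refine le_of_mul_le_mul_right ?_ M2
  nlinarith

end CTRx

theorem sCTR : SCTR := by
  intro m lg dX P _ A B G H x
  by_cases e : ∃ q, A.pr q = x
  · obtain ⟨q, hq⟩ := e
    have h0 : ∀ p, A.pr p = x → exp (A.β p (A.ft q)) ^ 2 ≤ 4 := fun p hp => by
      have := exp_le_exp.2 (G.two p q (hp.trans hq.symm))
      rw [exp_log two_pos] at this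
      nlinarith [exp_pos (A.β p (A.ft q))]
    obtain ⟨y₁, h1⟩ := CTRx.step B H hq (by norm_num) h0
    obtain ⟨y₂, h2⟩ := CTRx.step B H hq (by norm_num) h1
    obtain ⟨y₃, h3⟩ := CTRx.step B H hq (by norm_num) h2
    exact ⟨y₃, fun p hp => (h3 p hp).trans (by norm_num)⟩
  · exact ⟨x, fun p hp => absurd ⟨p, hp⟩ e⟩

end Pool.Agent.MP_3ee8cb_gt.DRB
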