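import Pool.Agent.MP_3ee8cb_gt.DRB.Spec
import Pool.Agent.MP_3ee8cb_gt.DQ.RLZ

/-! The shifted support function is Lipschitz in the point and in the direction. -/

namespace Pool.Agent.MP_3ee8cb_gt.DRB

open DN (Dim dm)

variable [Dim]

open Set Filter Topology Real DN DZ Metric DQ.LZx
open scoped RealInnerProductSpace

theorem sLZ : SLZ := by
  intro m lg dX P _ A hb g _ σ h s0 hh h0 H x₀ R
  obtain ⟨K, K0, hK⟩ := lips hb h0 H R
  obtain ⟨M, hM⟩ := bdd hb x₀ R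
  refine ⟨_, fun x hx => LipschitzOnWith.of_le_add_mul'
    ((exp (-M))⁻¹ * (exp M * ((2 + σ) * K + 1))) fun q hq q' hq' => ?_⟩
  obtain ⟨p, e, -, e1, m1⟩ := hh.max x q.1 q.2 hq.2
  obtain ⟨p', -, -, e2, m2⟩ := hh.max x q'.1 q'.2 hq'.2
  have lo : ∀ q : V × V, ‖q.1‖ ≤ R ∧ ‖q.2‖ = 1 → ∃ r, A.pr r = x ∧
      exp (-M) ≤ gs σ (A.β r) (A.ν r) (q.1, q.2) := fun q a => by
    obtain ⟨r, e, hν⟩ := g.onto x q.1 q.2 a.2
    refine ⟨r, e, ?_⟩
    simp only [gs, hν, real_inner_self_eq_norm_sq, a.2, one_pow]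
    have k := exp_le_exp.2 (neg_le_of_abs_le (hM r (e ▸ hx) q.1 a.1))
    nlinarith [mul_nonneg (exp_pos (A.β r q.1)).le s0]
  obtain ⟨r, f1, l1⟩ := lo q hq
  obtain ⟨r', f2, l2⟩ := lo q' hq'
  rw [e1, e2, mul_assoc]
  refine lg_lip (exp_pos _) (l1.trans (m1 r f1)) (l2.trans (m2 r' f2)) (by positivity) ?_
  refine le_trans ?_ (add_le_add_left (m2 p e) _)
  have d1 : ‖q.1 - q'.1‖ ≤ dist q q' := by
    rw [← dist_eq_norm, Prod.dist_eq]
    exact le_max_left _ _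
  have d2 : ‖q.2 - q'.2‖ ≤ dist q q' := by
    rw [← dist_eq_norm, Prod.dist_eq]
    exact le_max_right _ _
  obtain ⟨k1, k2⟩ := hK p q.1 q'.1 hq.1 hq'.1
  have k3 := mul_le_mul_of_nonneg_left d1 K0
  have b1 := le_of_abs_le (hM p (e ▸ hx) q.1 hq.1)
  have b2 := le_of_abs_le (hM p (e ▸ hx) q'.1 hq'.1)
  have x1 := (ex_abs b1 b2).trans (mul_le_mul_of_nonneg_left (k1.trans k3) (exp_pos M).le)
  have i1 := abs_real_inner_le_norm (A.ν p q.1) q.2
  have i2 := real_inner_le_norm (A.ν p q.1 - A.ν p q'.1) q.2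
  have i3 := real_inner_le_norm (A.ν p q'.1) (q.2 - q'.2)
  rw [(hb.isb p).unit, hq.2, mul_one] at i1
  rw [inner_sub_left, hq.2, mul_one] at i2
  rw [inner_sub_right, (hb.isb p).unit, one_mul] at i3
  have i4 : |⟪A.ν p q.1, q.2⟫ + σ| ≤ 1 + σ :=
    (abs_add_le _ _).trans (add_le_add i1 (abs_of_nonneg s0).le)
  have j1 : (exp (A.β p q.1) - exp (A.β p q'.1)) * (⟪A.ν p q.1, q.2⟫ + σ) ≤
      exp M * (K * dist q q') * (1 + σ) := by
    refine (le_abs_self _).trans ?_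
    rw [abs_mul]
    exact mul_le_mul x1 i4 (abs_nonneg _) (by positivity)
  have j2 : exp (A.β p q'.1) * (⟪A.ν p q.1, q.2⟫ - ⟪A.ν p q'.1, q'.2⟫) ≤
      exp M * ((K + 1) * dist q q') :=
    (mul_le_mul_of_nonneg_left (by linarith) (exp_pos _).le).trans
      (mul_le_mul_of_nonneg_right (exp_le_exp.2 b2) (by positivity))
  simp only [gs]
  linarith

end Pool.Agent.MP_3ee8cb_gt.DRB
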