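import Pool.Agent.MP_3ee8cb_gt.DRB.Spec
import Pool.Agent.MP_3ee8cb_gt.DRB.Mom

/-! The third absolute moment. -/

namespace Pool.Agent.MP_3ee8cb_gt.DRB

variable [DN.Dim]

theorem sMOM : SMOM := fun ms _ he => mom3 ms he

end Pool.Agent.MP_3ee8cb_gt.DRB
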