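import Pool.Agent.MP_3ee8cb_gt.DRB.Spec

/-! The scalar inequality behind the bound on the tangential part. -/

namespace Pool.Agent.MP_3ee8cb_gt.DRB

open Real

namespace NUM1x

theorem conc {g₀ g₁ g₂ a b t : ℝ} (h : 0 ≤ g₂) (ha : a ≤ t) (hb : t ≤ b)
    (h1 : 0 ≤ g₀ + g₁ * a - g₂ * a ^ 2) (h2 : 0 ≤ g₀ + g₁ * b - g₂ * b ^ 2) :
    0 ≤ g₀ + g₁ * t - g₂ * t ^ 2 := by
  rcases le_total 0 (g₁ - g₂ * (t + a)) with k | k
  · have := mul_nonneg (sub_nonneg.2 ha) k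
    linarith
  · have k2 := mul_le_mul_of_nonneg_left (ha.trans hb) h
    have := mul_nonneg (sub_nonneg.2 hb) (show 0 ≤ g₂ * (t + b) - g₁ by linarith)
    linarith

theorem disc {s r : ℝ} (s0 : 0 < s) (s1 : s ≤ 1 / 4)
    (h0 : s * (1 + s) ≤ (19 / 50 + 107 / 100 * s) * r) (h1 : r ≤ 4 / 5 + s) :
    0 ≤ 4 * (1 + s - r) * (r * (199 / 50 - 249 / 50 * s) - s * (1 - s)) -
      s * (6 + 2 * s - 299 / 50 * r) ^ 2 := by
  have W : 0 < 19 / 50 + 107 / 100 * s := by positivity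
  obtain ⟨f, hf⟩ : ∃ f, f * (19 / 50 + 107 / 100 * s) = 1 + s :=
    ⟨_, div_mul_cancel₀ _ W.ne'⟩
  have ha : s * f ≤ r := le_of_mul_le_mul_right (by rw [mul_assoc, hf]; linarith) W
  have h3 : s ^ 3 ≤ s ^ 2 / 4 := by nlinarith [pow_pos s0 2]
  have h4 : s ^ 4 ≤ s ^ 3 / 4 := by nlinarith [pow_pos s0 3]
  have e1 : 0 ≤ 4 * (1 + s - s * f) * (f * (199 / 50 - 249 / 50 * s) - (1 - s)) -
      (6 + 2 * s - 299 / 50 * (s * f)) ^ 2 := by
    refine nonneg_of_mul_nonneg_left ?_ (pow_pos W 2)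
    generalize hW : 19 / 50 + 107 / 100 * s = W at hf
    have e : (4 * (1 + s - s * f) * (f * (199 / 50 - 249 / 50 * s) - (1 - s)) -
        (6 + 2 * s - 299 / 50 * (s * f)) ^ 2) * W ^ 2 =
        4 * ((1 + s) * W - s * (f * W)) * (f * W * (199 / 50 - 249 / 50 * s) - (1 - s) * W) -
          ((6 + 2 * s) * W - 299 / 50 * (s * (f * W))) ^ 2 := by ring
    rw [e, hf, ← hW]
    nlinarith [sq_nonneg (s - 1 / 10), pow_pos s0 3]
  have k := conc (g₀ := -(4 * (1 + s) * (s * (1 - s))) - s * (6 + 2 * s) ^ 2)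
    (g₁ := 4 * (1 + s) * (199 / 50 - 249 / 50 * s) + 4 * (s * (1 - s)) +
      299 / 25 * s * (6 + 2 * s)) (g₂ := 4 * (199 / 50 - 249 / 50 * s) + (299 / 50) ^ 2 * s)
    (by linarith) ha h1 (by have := mul_nonneg s0.le e1; linarith)
    (by nlinarith [pow_pos s0 2, pow_pos s0 3])
  linarith

end NUM1x

theorem sNUM1 : SNUM1 := by
  intro s F s0 s1 hF t x h0 t1 x0 x1
  have r0 : 0 < t + s := pos_of_mul_pos_right (a := F ^ 2) (by linarith) (sq_nonneg F)
  have h1 : s * (1 + s) ≤ (19 / 50 + 107 / 100 * s) * (t + s) := by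
    have a1 := mul_le_mul_of_nonneg_left h0 s0.le
    have a2 := mul_le_mul_of_nonneg_right hF r0.le
    norm_num at a2
    linarith
  rw [show (3.98 : ℝ) = 199 / 50 by norm_num]
  rcases le_total t (4 / 5) with h | h
  · have k := mul_nonneg s0.le (NUM1x.disc s0 s1 h1 (by linarith))
    have k2 := sq_nonneg (x - s * (6 + 2 * s - 299 / 50 * (t + s)) / 2)
    linarith
  · have u0 : 0 ≤ 1 - t := sub_nonneg.2 t1
    have a1 : x ≤ 12 * s * (1 - t) := by
      have := mul_nonneg s0.le (sq_nonneg (1 - t))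
      linarith
    have a2 := mul_le_mul_of_nonneg_left a1 (show 0 ≤ 152 / 125 - 199 / 50 * s by linarith)
    have a3 := mul_nonneg x0 (sub_nonneg.2 h)
    have a4 : 12 * s * (152 / 125 - 199 / 50 * s) ≤ 199 / 50 * (t + s) * (1 - s) - s * (1 + t) := by
      have b1 := mul_nonneg (sub_nonneg.2 h) (show 0 ≤ 199 / 50 - 249 / 50 * s by linarith)
      nlinarith [sq_nonneg (s - 1 / 6)]
    have a5 := mul_le_mul_of_nonneg_right a4 u0
    have a6 : (6 + 2 * s - 299 / 50 * (t + s)) * x ≤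
        (199 / 50 * (t + s) * (1 - s) - s * (1 + t)) * (1 - t) := by linarith
    have a7 := mul_le_mul_of_nonneg_left a6 s0.le
    have a8 := sq_nonneg x
    linarith

end Pool.Agent.MP_3ee8cb_gt.DRB
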