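import Mathlib

/-! The scalar inequality behind the pairing by a reflection. -/

namespace Pool.Agent.MP_3ee8cb_gt.DRB

open Real Set

theorem amgm {a b c : ℝ} (ha : 0 ≤ a) (hb : 0 ≤ b) (h : c ^ 2 ≤ a * b) : 2 * c ≤ a + b :=
  abs_le_of_sq_le_sq' (by nlinarith [sq_nonneg (a - b)]) (add_nonneg ha hb) |>.2

section

variable {s K al mu x : ℝ}

theorem mu_ge (s0 : 0 < s) (hmu : mu * (1 + s) = 199 / 100 * s) :
    199 / 100 * (s - s ^ 2) ≤ mu := by
  refine le_of_mul_le_mul_right ?_ (show 0 < 1 + s by positivity)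
  rw [hmu]
  nlinarith [pow_pos s0 3]

theorem ePlus (s0 : 0 < s) (s1 : s ≤ 1 / 4) (hal : al * (1 + 5 * s) = 27 / 10)
    (hy : x ^ 2 ≤ 3 * s - 4 * s ^ 2) :
    7 / 5 * al * (x ^ 2 + x * s) + 14 / 9 * (1 - x ^ 2) ≤ 2 := by
  have D : 0 < 1 + 5 * s := by positivity
  refine le_of_mul_le_mul_right ?_ D
  have e : (7 / 5 * al * (x ^ 2 + x * s) + 14 / 9 * (1 - x ^ 2)) * (1 + 5 * s) =
      189 / 50 * (x ^ 2 + x * s) + 14 / 9 * (1 - x ^ 2) * (1 + 5 * s) := by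
    linear_combination 7 / 5 * (x ^ 2 + x * s) * hal
  rw [e]
  have h1 : x * s ≤ (5 / 6 * x ^ 2 + 3 / 10) * s :=
    mul_le_mul_of_nonneg_right (by nlinarith [sq_nonneg (x - 3 / 5)]) s0.le
  have h2 := mul_le_mul_of_nonneg_right hy
    (show 0 ≤ 189 / 50 - 14 / 9 - (70 / 9 - 63 / 20) * s by linarith)
  have h3 : s ^ 3 ≤ s ^ 2 / 4 := by nlinarith [pow_pos s0 2]
  nlinarith [sq_nonneg (s - 2 / 13)]

theorem cubic {z : ℝ} (s0 : 0 < s) (s1 : s ≤ 1 / 4) (z0 : 0 ≤ z) :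
    0 ≤ (51 / 25 + 72 / 25 * s) * (1 + z) - 2 * (1 + 5 * s) * z +
      (513 / 1250 - 1323 / 500 * s) * s * z ^ 2 + 47 / 20 * s ^ 2 * z ^ 3 := by
  have h1 : 0 ≤ 47 / 20 * s ^ 2 * (z * (z - 11 / 5) ^ 2) := by positivity
  have h2 : 0 ≤ (1 / 4 - s) * z := mul_nonneg (by linarith) z0
  have h3 : (174 / 25 + 5687 / 500 * s) ^ 2 * s ≤
      4 * (51 / 25 + 72 / 25 * s) * (513 / 1250 + 3847 / 500 * s) := by
    have : s ^ 3 ≤ s ^ 2 / 4 := by nlinarith [pow_pos s0 2]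
    have : s ^ 2 ≤ s / 4 := by nlinarith
    nlinarith
  have h4 := amgm (a := 51 / 25 + 72 / 25 * s) (b := (513 / 1250 + 3847 / 500 * s) * s * z ^ 2)
    (c := (174 / 25 + 5687 / 500 * s) * s * z / 2) (by positivity) (by positivity) (by
      have := mul_le_mul_of_nonneg_right h3 (show 0 ≤ s * z ^ 2 / 4 by positivity)
      linarith)
  linarith

theorem eMinus (s0 : 0 < s) (s1 : s ≤ 1 / 4) (hal : al * (1 + 5 * s) = 27 / 10)
    (hmu : mu * (1 + s) = 199 / 100 * s) (hK : K * s = 19 / 50 + 21 / 20 * s) (x0 : 0 ≤ x) :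
    0 ≤ K * (al * mu + 2 / 5 * al * x ^ 2) * (x + s) - (2 - 7 / 5 * al * x ^ 2) * x -
      7 / 5 * al * x ^ 2 * s - 7 / 5 * al * (9 / 10 * al) * x ^ 3 := by
  have D : 0 < 1 + 5 * s := by positivity
  obtain ⟨z, rfl⟩ : ∃ z, x = s * z := ⟨x / s, by field_simp⟩
  have z0 : 0 ≤ z := nonneg_of_mul_nonneg_right x0 s0
  have p0 : 51 / 25 + 72 / 25 * s ≤ 27 / 10 * (K * mu) := by
    refine le_of_mul_le_mul_right ?_ (show 0 < 1 + s by positivity)
    have e : 27 / 10 * (K * mu) * (1 + s) = 5373 / 1000 * (19 / 50 + 21 / 20 * s) := by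
      linear_combination 27 / 10 * K * hmu + 5373 / 1000 * hK
    rw [e]
    nlinarith
  have g0 : 1701 / 500 * (al * s) ≤ 513 / 1250 + 641 / 250 * s := by
    refine le_of_mul_le_mul_right ?_ D
    have e : 1701 / 500 * (al * s) * (1 + 5 * s) = 45927 / 5000 * s := by
      linear_combination 1701 / 500 * s * hal
    rw [e]
    nlinarith [sq_nonneg (s - 89 / 500)]
  refine nonneg_of_mul_nonneg_left ?_ D
  have e : (K * (al * mu + 2 / 5 * al * (s * z) ^ 2) * (s * z + s) -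
      (2 - 7 / 5 * al * (s * z) ^ 2) * (s * z) - 7 / 5 * al * (s * z) ^ 2 * s -
      7 / 5 * al * (9 / 10 * al) * (s * z) ^ 3) * (1 + 5 * s) =
      s * (27 / 10 * (K * mu) * (1 + z) - 2 * (1 + 5 * s) * z +
        (513 / 1250 - 1323 / 500 * s) * s * z ^ 2 +
        (513 / 1250 + 2457 / 500 * s - 1701 / 500 * (al * s)) * s * z ^ 3) := by
    linear_combination (K * (mu + 2 / 5 * (s * z) ^ 2) * (s * z + s) +
      7 / 5 * (s * z) ^ 3 - 7 / 5 * (s * z) ^ 2 * s - 63 / 50 * al * (s * z) ^ 3) * hal +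
      27 / 25 * s ^ 2 * z ^ 2 * (1 + z) * hK
  rw [e]
  refine mul_nonneg s0.le ((cubic s0 s1 z0).trans ?_)
  have a1 := mul_le_mul_of_nonneg_right p0 (show 0 ≤ 1 + z by positivity)
  have a2 := mul_le_mul_of_nonneg_right g0 (show 0 ≤ s * z ^ 3 by positivity)
  linarith

theorem end1 (s0 : 0 < s) (s1 : s ≤ 1 / 4) (hal : al * (1 + 5 * s) = 27 / 10)
    (hmu : mu * (1 + s) = 199 / 100 * s) {r : ℝ} (r0 : 0 < r)
    (hr : r * (1 - s ^ 2) = (19 / 50 + 21 / 20 * s) * (3 - 5 * s)) :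
    al * (3 * s - 4 * s ^ 2 - mu) ≤ log r := by
  have D : 0 < 1 + 5 * s := by positivity
  have a0 : 0 < al := pos_of_mul_pos_left (by rw [hal]; norm_num) D.le
  have R : 0 < (19 / 50 + 21 / 20 * s) * (3 - 5 * s) := mul_pos (by positivity) (by linarith)
  refine le_trans ?_ (one_sub_inv_le_log_of_pos r0)
  have i : r⁻¹ * ((19 / 50 + 21 / 20 * s) * (3 - 5 * s)) = 1 - s ^ 2 := by
    rw [← hr, ← mul_assoc, inv_mul_cancel₀ r0.ne', one_mul]
  have h1 := mul_le_mul_of_nonneg_left (mu_ge s0 hmu) a0.le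
  refine le_trans (b := al * (101 / 100 * s - 201 / 100 * s ^ 2)) (by linarith) ?_
  refine le_of_mul_le_mul_right ?_ (mul_pos D R)
  have e1 : al * (101 / 100 * s - 201 / 100 * s ^ 2) *
      ((1 + 5 * s) * ((19 / 50 + 21 / 20 * s) * (3 - 5 * s))) =
      27 / 10 * (101 / 100 * s - 201 / 100 * s ^ 2) * ((19 / 50 + 21 / 20 * s) * (3 - 5 * s)) := by
    linear_combination (101 / 100 * s - 201 / 100 * s ^ 2) *
      ((19 / 50 + 21 / 20 * s) * (3 - 5 * s)) * hal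
  have e2 : (1 - r⁻¹) * ((1 + 5 * s) * ((19 / 50 + 21 / 20 * s) * (3 - 5 * s))) =
      ((19 / 50 + 21 / 20 * s) * (3 - 5 * s) - (1 - s ^ 2)) * (1 + 5 * s) := by
    linear_combination (-(1 + 5 * s)) * i
  rw [e1, e2]
  have h3 : s ^ 3 ≤ s ^ 2 / 4 := by nlinarith [pow_pos s0 2]
  have h4 : s ^ 4 ≤ s ^ 3 / 4 := by nlinarith [pow_pos s0 3]
  nlinarith [sq_nonneg (s - 1 / 5)]

theorem end2 (s0 : 0 < s) (s1 : s ≤ 1 / 4) (hal : al * (1 + 5 * s) = 27 / 10)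
    (hmu : mu * (1 + s) = 199 / 100 * s) (hK : K * s = 19 / 50 + 21 / 20 * s) :
    al * (1 - mu) ≤ log K := by
  have D : 0 < 1 + 5 * s := by positivity
  have a0 : 0 < al := pos_of_mul_pos_left (by rw [hal]; norm_num) D.le
  have K0 : 5 / 2 ≤ K := le_of_mul_le_mul_right (by linarith) s0
  have l1 := le_log_one_add_of_nonneg (show 0 ≤ 2 / 5 * K - 1 by linarith)
  have l2 := le_log_one_add_of_nonneg (show (0 : ℝ) ≤ 1 / 4 by norm_num)
  have l3 := log_two_gt_d9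
  have e : log K = log 2 + log (1 + 1 / 4) + log (1 + (2 / 5 * K - 1)) := by
    rw [← log_mul (by norm_num) (by norm_num), ← log_mul (by norm_num) (by linarith)]
    congr 1
    ring
  have R : 0 < 19 / 50 + 71 / 20 * s := by positivity
  have e3 : 2 * (2 / 5 * K - 1) / (2 / 5 * K - 1 + 2) * (19 / 50 + 71 / 20 * s) =
      2 * (19 / 50 - 29 / 20 * s) := by
    rw [div_mul_eq_mul_div, div_eq_iff (by linarith)]
    linear_combination 4 * hK
  have h1 := mul_le_mul_of_nonneg_left (mu_ge s0 hmu) a0.le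
  generalize 2 * (2 / 5 * K - 1) / (2 / 5 * K - 1 + 2) = q at l1 e3
  have h2 : al * (1 - 199 / 100 * (s - s ^ 2)) ≤ 183 / 200 + q := by
    refine le_of_mul_le_mul_right ?_ (mul_pos D R)
    have e1 : al * (1 - 199 / 100 * (s - s ^ 2)) * ((1 + 5 * s) * (19 / 50 + 71 / 20 * s)) =
        27 / 10 * (1 - 199 / 100 * (s - s ^ 2)) * (19 / 50 + 71 / 20 * s) := by
      linear_combination (1 - 199 / 100 * (s - s ^ 2)) * (19 / 50 + 71 / 20 * s) * hal
    have e2 : (183 / 200 + q) * ((1 + 5 * s) * (19 / 50 + 71 / 20 * s)) =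
        (183 / 200 * (19 / 50 + 71 / 20 * s) + 2 * (19 / 50 - 29 / 20 * s)) * (1 + 5 * s) := by
      linear_combination (1 + 5 * s) * e3
    rw [e1, e2]
    have h3 : s ^ 3 ≤ s ^ 2 / 4 := by nlinarith [pow_pos s0 2]
    nlinarith [sq_nonneg (s - 3 / 50)]
  have l4 : (2 : ℝ) * (1 / 4) / (1 / 4 + 2) = 2 / 9 := by norm_num
  rw [l4] at l2
  rw [e]
  norm_num at l3
  linarith

variable {S A U : ℝ}

theorem small (s0 : 0 < s) (s1 : s ≤ 1 / 4) (hal : al * (1 + 5 * s) = 27 / 10)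
    (hmu : mu * (1 + s) = 199 / 100 * s) (hK : K * s = 19 / 50 + 21 / 20 * s) (x0 : 0 ≤ x)
    (S0 : -1 ≤ S) (S1 : S ≤ 1) (hA : A ^ 2 ≤ (1 - S ^ 2) * (1 - x ^ 2))
    (U1 : A + S * x + s ≤ U) (U2 : K / 2 * (x + s) * (1 - S) ≤ U)
    (hy : x ^ 2 ≤ 3 * s - 4 * s ^ 2) : A - S * x + s ≤ (1 - al * (x ^ 2 - mu)) * U := by
  have D : 0 < 1 + 5 * s := by positivity
  have a0 : 0 < al := pos_of_mul_pos_left (by rw [hal]; norm_num) D.le
  have m0 : 0 < mu := pos_of_mul_pos_left (by rw [hmu]; positivity) (by positivity : 0 ≤ 1 + s)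
  have y1 : 0 ≤ 1 - x ^ 2 := by nlinarith
  have l2 : 0 ≤ 1 - 7 / 5 * al * x ^ 2 := by
    refine nonneg_of_mul_nonneg_left ?_ D
    have e : (1 - 7 / 5 * al * x ^ 2) * (1 + 5 * s) = 1 + 5 * s - 189 / 50 * x ^ 2 := by
      linear_combination (-(7 / 5 * x ^ 2)) * hal
    rw [e]
    nlinarith [sq_nonneg (s - 1 / 5)]
  have b1 := mul_le_mul_of_nonneg_left U1 l2
  have b2 := mul_le_mul_of_nonneg_left U2
    (show 0 ≤ al * mu + 2 / 5 * al * x ^ 2 by positivity)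
  have b3 := amgm (a := (9 / 10 * al * x) ^ 2 * (1 - S)) (b := (1 + S) * (1 - x ^ 2))
    (c := 9 / 10 * al * x * A) (mul_nonneg (sq_nonneg _) (by linarith))
    (mul_nonneg (by linarith) y1) (by
      have := mul_le_mul_of_nonneg_left hA (sq_nonneg (9 / 10 * al * x))
      linarith)
  have b4 := mul_le_mul_of_nonneg_left b3 x0
  have b5 := mul_nonneg (sub_nonneg.2 S1) (eMinus s0 s1 hal hmu hK x0)
  have b6 := mul_nonneg (mul_nonneg (show 0 ≤ 1 + S by linarith) x0)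
    (sub_nonneg.2 (ePlus s0 s1 hal hy))
  linarith

theorem large (s0 : 0 < s) (s1 : s ≤ 1 / 4) (hal : al * (1 + 5 * s) = 27 / 10)
    (hmu : mu * (1 + s) = 199 / 100 * s) (hK : K * s = 19 / 50 + 21 / 20 * s)
    (x1 : x ^ 2 ≤ 1) (hy : 3 * s - 4 * s ^ 2 ≤ x ^ 2) :
    al * (x ^ 2 - mu) ≤ log (K * (x ^ 2 - s ^ 2) / (1 - s ^ 2)) := by
  have K0 : 0 < K := pos_of_mul_pos_left (by rw [hK]; positivity) s0.le
  have d1 : 0 < 1 - s ^ 2 := by nlinarith
  have d2 : 0 < 1 - (3 * s - 4 * s ^ 2) := by nlinarith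
  have r0 : 0 < K * (3 * s - 5 * s ^ 2) / (1 - s ^ 2) :=
    div_pos (mul_pos K0 (by nlinarith)) d1
  have e1 := end1 s0 s1 hal hmu r0 (by
    rw [div_mul_cancel₀ _ d1.ne']
    linear_combination (3 - 5 * s) * hK)
  have e2 := end2 s0 s1 hal hmu hK
  set t := (1 - x ^ 2) / (1 - (3 * s - 4 * s ^ 2)) with ht
  have t0 : 0 ≤ t := div_nonneg (by linarith) d2.le
  have t1 : t ≤ 1 := (div_le_one d2).2 (by linarith)
  have t2 : x ^ 2 = t * (3 * s - 4 * s ^ 2) + (1 - t) := by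
    have : t * (1 - (3 * s - 4 * s ^ 2)) = 1 - x ^ 2 := div_mul_cancel₀ _ d2.ne'
    linarith
  have c := strictConcaveOn_log_Ioi.concaveOn.2 (mem_Ioi.2 r0) (mem_Ioi.2 K0) t0
    (sub_nonneg.2 t1) (by ring)
  have e : t • (K * (3 * s - 5 * s ^ 2) / (1 - s ^ 2)) + (1 - t) • K =
      K * (x ^ 2 - s ^ 2) / (1 - s ^ 2) := by
    rw [t2, smul_eq_mul, smul_eq_mul]
    field_simp
    ring
  rw [e, smul_eq_mul, smul_eq_mul] at c
  have f1 := mul_le_mul_of_nonneg_left e1 t0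
  have f2 := mul_le_mul_of_nonneg_left e2 (sub_nonneg.2 t1)
  refine le_trans (le_of_eq ?_) ((add_le_add f1 f2).trans c)
  rw [t2]
  ring

theorem num2' (s0 : 0 < s) (s1 : s ≤ 1 / 4) (hal : al * (1 + 5 * s) = 27 / 10)
    (hmu : mu * (1 + s) = 199 / 100 * s) (hK : K * s = 19 / 50 + 21 / 20 * s) (x0 : 0 ≤ x)
    (x1 : x ≤ 1) (S0 : -1 ≤ S) (S1 : S ≤ 1) (hA : A ^ 2 ≤ (1 - S ^ 2) * (1 - x ^ 2))
    (hP : 0 < A - S * x + s) (U1 : A + S * x + s ≤ U) (U2 : K / 2 * (x + s) * (1 - S) ≤ U) :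
    0 < U ∧ al * (x ^ 2 - mu) ≤ log U - log (A - S * x + s) := by
  have K0 : 0 < K := pos_of_mul_pos_left (by rw [hK]; positivity) s0.le
  have y1 : 0 ≤ 1 - x ^ 2 := by nlinarith
  have U0 : 0 < U := by
    rcases S1.eq_or_lt with h | h
    · subst h
      have : A = 0 := by nlinarith
      linarith
    · exact (mul_pos (by positivity) (sub_pos.2 h)).trans_le U2
  refine ⟨U0, ?_⟩
  rcases le_total (x ^ 2) (3 * s - 4 * s ^ 2) with hy | hy
  · have h1 := small s0 s1 hal hmu hK x0 S0 S1 hA U1 U2 hy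
    have h2 := log_le_sub_one_of_pos (div_pos hP U0)
    rw [log_div hP.ne' U0.ne'] at h2
    have h3 := (div_le_iff₀ U0).2 h1
    linarith
  · refine (large s0 s1 hal hmu hK (by linarith) hy).trans ?_
    have d1 : 0 < 1 - s ^ 2 := by nlinarith
    have d2 : 0 < x ^ 2 - s ^ 2 := by nlinarith
    rw [← log_div U0.ne' hP.ne']
    refine log_le_log (by positivity) ?_
    rw [div_le_div_iff₀ d1 hP]
    have b3 := amgm (a := (1 - S) * (1 - x ^ 2)) (b := (1 + S) * (x - s) ^ 2)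
      (c := (x - s) * A) (mul_nonneg (by linarith) y1)
      (mul_nonneg (by linarith) (sq_nonneg _)) (by
        have := mul_le_mul_of_nonneg_left hA (sq_nonneg (x - s))
        linarith)
    have b4 := mul_le_mul_of_nonneg_left b3 (show 0 ≤ K / 2 * (x + s) by positivity)
    have b5 := mul_le_mul_of_nonneg_right U2 d1.le
    linarith

/-- The scalar inequality. -/
theorem num2 (s0 : 0 < s) (s1 : s ≤ 1 / 4) (hK : 19 / 50 + 21 / 20 * s ≤ K * s) (x0 : 0 ≤ x)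
    (x1 : x ≤ 1) (S0 : -1 ≤ S) (S1 : S ≤ 1) (hA : A ^ 2 ≤ (1 - S ^ 2) * (1 - x ^ 2))
    (hP : 0 < A - S * x + s) (U1 : A + S * x + s ≤ U) (U2 : K / 2 * (x + s) * (1 - S) ≤ U) :
    27 / 10 / (1 + 5 * s) * (x ^ 2 - 199 / 100 * s / (1 + s)) ≤ log U - log (A - S * x + s) := by
  have k : (19 / 50 + 21 / 20 * s) / s ≤ K := (div_le_iff₀ s0).2 hK
  refine (num2' s0 s1 (div_mul_cancel₀ _ (by positivity)) (div_mul_cancel₀ _ (by positivity))
    (div_mul_cancel₀ _ s0.ne') x0 x1 S0 S1 hA hP U1 (le_trans ?_ U2)).2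
  have : 0 ≤ 1 - S := sub_nonneg.2 S1
  gcongr

end

end Pool.Agent.MP_3ee8cb_gt.DRB
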