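import Pool.Agent.MP_3ee8cb_gt.DRB.Spec
import Pool.Agent.MP_3ee8cb_gt.DRB.Num2

/-! The scalar inequality behind the inward direction. -/

namespace Pool.Agent.MP_3ee8cb_gt.DRB

open Real

theorem sNUM2 : SNUM2 := by
  intro s F s0 s1 F0 hF x S B f U x0 x1 hS hB f0 hf U2 U1 hP
  obtain ⟨S0, S1⟩ := abs_le.1 ((sq_le_one_iff_abs_le_one S).1 hS)
  have U0 : 0 < U := (by positivity : 0 < F * (x + s)).trans_le U2
  have k := num2 (K := F ^ 2) (U := U / f) s0 s1 (by norm_num at hF; linarith) x0.le x1 S0 S1 hB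
    hP ((le_div_iff₀ f0).2 (by linarith)) ((le_div_iff₀ f0).2 (by
      have := mul_le_mul_of_nonneg_left hf (show 0 ≤ F * (x + s) / 2 by positivity)
      linarith))
  rw [log_div U0.ne' f0.ne'] at k
  rw [log_mul f0.ne' hP.ne', show (2.7 : ℝ) = 27 / 10 by norm_num,
    show (1.99 : ℝ) = 199 / 100 by norm_num]
  linarith

end Pool.Agent.MP_3ee8cb_gt.DRB
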