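import Pool.Agent.MP_3ee8cb_gt.DRB.Spec
import Pool.Agent.MP_3ee8cb_gt.DQ.RTOU

/-! The shifted support function is touched from below by the function of a maximiser. -/

namespace Pool.Agent.MP_3ee8cb_gt.DRB

open Set Filter Topology Real
open scoped RealInnerProductSpace
open DN (Dim dm)

variable [Dim]

open DN DZ

namespace TOUx

theorem der (m : MF) (σ : ℝ) (b : V → ℝ) (ν : V → V) (z w : V) (E D : V →L[ℝ] V)
    (hk : ∀ u a c, ⟪m.om z u a, c⟫ = -⟪a, m.om z u c⟫) (hs : ∀ a c, ⟪E a, c⟫ = ⟪a, E c⟫)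
    (hb : HasFDerivAt b (-(innerSL ℝ (ν z)).comp (m.S z)) z) (hD : HasFDerivAt ν D z)
    (hE : ∀ u, D u + m.om z u (ν z) = -(m.S z u - ⟪ν z, m.S z u⟫ • ν z + E (m.S z u)))
    (ht : 0 < ⟪ν z, w⟫ + σ) : ∃ L : V × V →L[ℝ] ℝ,
    HasFDerivAt (fun q => log (gs σ b ν q)) L (z, w) ∧ ∀ ξ, m.ver (z, w) ξ = 0 →
      L ξ = -⟪(⟪ν z, w⟫ + σ : ℝ)⁻¹ • (w + E w + σ • ν z), m.hor (z, w) ξ⟫ := by
  have f1 : HasFDerivAt (fun q : V × V => q.1) (ContinuousLinearMap.fst ℝ V V) (z, w) :=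
    hasFDerivAt_fst
  have f2 : HasFDerivAt (fun q : V × V => q.2) (ContinuousLinearMap.snd ℝ V V) (z, w) :=
    hasFDerivAt_snd
  have b1 := (HasFDerivAt.comp (z, w) (g := b) hb f1).exp
  have n1 := ((HasFDerivAt.comp (z, w) (g := ν) hD f1).inner ℝ f2).add_const σ
  have g0 : exp (b z) * (⟪ν z, w⟫ + σ) ≠ 0 := (mul_pos (exp_pos _) ht).ne'
  have g1 := (b1.mul n1).log g0
  refine ⟨_, g1, fun ξ hξ => ?_⟩
  have e2 : ξ.2 = -m.om z ξ.1 w := by
    have : ξ.2 + m.om z ξ.1 w = 0 := by simpa [MF.ver] using hξ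
    exact eq_neg_of_add_eq_zero_left this
  have e1 : D ξ.1 = -(m.S z ξ.1 - ⟪ν z, m.S z ξ.1⟫ • ν z + E (m.S z ξ.1)) - m.om z ξ.1 (ν z) :=
    eq_sub_of_add_eq (hE ξ.1)
  have e3 : ⟪ν z, ξ.2⟫ + ⟪D ξ.1, w⟫ = ⟪ν z, m.S z ξ.1⟫ * ⟪ν z, w⟫ - ⟪w + E w, m.S z ξ.1⟫ := by
    rw [e1, e2, inner_neg_right, inner_sub_left, inner_neg_left, inner_add_left, inner_sub_left,
      real_inner_smul_left, hk, hs, inner_add_left, real_inner_comm (m.S z ξ.1) w,
      real_inner_comm (m.S z ξ.1) (E w)]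
    ring
  have e4 : m.hor (z, w) ξ = m.S z ξ.1 := rfl
  rw [e4, real_inner_smul_left, inner_add_left, real_inner_smul_left]
  simp only [smul_apply, add_apply,
    ContinuousLinearMap.comp_apply, ContinuousLinearMap.prod_apply, fderivInnerCLM_apply,
    ContinuousLinearMap.coe_fst', ContinuousLinearMap.coe_snd', Function.comp_apply,
    neg_apply, innerSL_apply_apply, smul_eq_mul, Pi.mul_apply]
  rw [e3]
  have x0 := (exp_pos (b z)).ne'
  have t0 := ht.ne'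
  field_simp
  ring

end TOUx

theorem sTOU : STOU := by
  intro m lg dX P _ A hF hG _ σ h ε F s0 s1 hH h0 F0 hN hS x z w hz w1
  obtain ⟨p, hp, g0, hu, hmax⟩ := hH.max x z w w1
  obtain ⟨E, hs, hn, hb, D, hD, hE⟩ := hS p z
  have n1 : ‖A.ν p z‖ = 1 := (hF.isb p).unit z
  have ht : 0 < ⟪A.ν p z, w⟫ + σ := (mul_pos_iff_of_pos_left (exp_pos (A.β p z))).1 g0
  have t1 : ∀ r, ⟪A.ν r z, w⟫ ≤ 1 := fun r => by
    have := real_inner_le_norm (A.ν r z) w
    rwa [(hF.isb r).unit z, w1, mul_one] at this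
  have ww : ⟪w, w⟫ = 1 := by rw [real_inner_self_eq_norm_sq, w1, one_pow]
  have up : ∀ r, A.pr r = x → exp (A.β r z) ≤ F := fun r hr => by
    have := exp_le_exp.2 (hz r hr)
    rwa [exp_log F0] at this
  have tF : 1 + σ ≤ F ^ 2 * (⟪A.ν p z, w⟫ + σ) := by
    obtain ⟨p', hp', hw'⟩ := hG.onto x z w w1
    have a1 : exp (A.β p' z) * (⟪A.ν p' z, w⟫ + σ) ≤ exp (A.β p z) * (⟪A.ν p z, w⟫ + σ) :=
      hmax p' hp'
    rw [hw', ww] at a1
    have a2 : 1 ≤ exp (A.β p' z) * exp (A.β (A.fl p') z) := by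
      rw [← exp_add]
      exact one_le_exp (hG.opp p' z)
    have a3 := up (A.fl p') ((hF.flp p').1.trans hp')
    have a4 := mul_le_mul_of_nonneg_right (up p hp) ht.le
    have a5 := mul_le_mul (a1.trans a4) a3 (exp_pos _).le (mul_pos F0 ht).le
    have a6 := mul_le_mul_of_nonneg_right a2 (show 0 ≤ 1 + σ by linarith)
    nlinarith
  obtain ⟨L, hL, hLe⟩ := TOUx.der m σ (A.β p) (A.ν p) z w E D (hF.yw.ok.skew z) hs
    ((hF.b1 p).der z) hD hE ht
  have x0 := (hb w).1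
  have x1 := DQ.TOUx.form_le E h (A.ν p z) w hs hn hb n1 w1
  have x2 := DQ.TOUx.sq_le E h h0 hs hb w
  have x3 := hN _ _ tF (t1 p) x0 x1
  have cg : ContinuousAt (gs σ (A.β p) (A.ν p)) (z, w) := by
    have c1 : ContinuousAt (fun q : V × V => A.β p q.1) (z, w) :=
      ContinuousAt.comp (f := Prod.fst) ((hF.b1 p).der z).continuousAt continuousAt_fst
    have c2 : ContinuousAt (fun q : V × V => A.ν p q.1) (z, w) :=
      ContinuousAt.comp (f := Prod.fst) hD.continuousAt continuousAt_fst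
    exact c1.rexp.mul ((c2.inner continuousAt_snd).add continuousAt_const)
  have tp := t1 p
  have k1 : ‖E w + σ • A.ν p z‖ ^ 2 = ‖E w‖ ^ 2 + σ ^ 2 := by
    rw [norm_add_sq_real, real_inner_smul_right, hs, hn, inner_zero_right, norm_smul, n1,
      Real.norm_eq_abs, mul_one, sq_abs]
    ring
  have k2 : ⟪E w + σ • A.ν p z, w⟫ = ⟪E w, w⟫ + σ * ⟪A.ν p z, w⟫ := by
    rw [inner_add_left, real_inner_smul_left]
  generalize hx : ⟪E w, w⟫ = y at x0 x1 x2 x3 k2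
  generalize hT : ⟪A.ν p z, w⟫ = t at ht tp tF hLe x1 x3 k2
  have t0 := ht.ne'
  refine ⟨fun q => log (gs σ (A.β p) (A.ν p) q), L, (1 + (y + σ * t)) / (t + σ),
    (t + σ)⁻¹ • (E w + σ • A.ν p z - (y + σ * t) • w), hL, hu.symm, ?_, ?_, ?_, ?_, ?_, ?_⟩
  · filter_upwards [cg.eventually (lt_mem_nhds g0)] with q hq q1
    obtain ⟨r, -, -, hr, hm⟩ := hH.max x q.1 q.2 q1
    rw [hr]
    exact log_le_log hq (hm p hp)
  · rw [le_div_iff₀ ht]
    nlinarith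
  · change ⟪(t + σ)⁻¹ • (E w + σ • A.ν p z - (y + σ * t) • w), w⟫ = 0
    rw [real_inner_smul_left, inner_sub_left, real_inner_smul_left, k2, ww, mul_one, sub_self,
      mul_zero]
  · have e1 : ‖E w + σ • A.ν p z - (y + σ * t) • w‖ ^ 2 =
        ‖E w‖ ^ 2 + σ ^ 2 - (y + σ * t) ^ 2 := by
      rw [norm_sub_sq_real, real_inner_smul_right, k1, k2, norm_smul, w1, Real.norm_eq_abs,
        mul_one, sq_abs]
      ring
    have e2 : ε ^ 2 * ((1 + (y + σ * t)) / (t + σ) - 1) =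
        (t + σ)⁻¹ ^ 2 * (ε ^ 2 * (t + σ) * ((1 - σ) * (1 - t) + y)) := by
      field_simp
      ring
    rw [norm_smul, mul_pow, e1, Real.norm_eq_abs, sq_abs, e2]
    exact mul_le_mul_of_nonneg_left (by linarith) (sq_nonneg _)
  · intro hc
    rw [div_eq_one_iff_eq t0] at hc
    have e0 : t = 1 := by
      by_contra hne
      have := mul_pos (sub_pos.2 s1) (sub_pos.2 (lt_of_le_of_ne tp hne))
      nlinarith
    have e1 : ⟪A.ν p z, w⟫ = 1 := hT.trans e0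
    refine ⟨p, hp, (inner_eq_one_iff_of_norm_eq_one n1 w1).1 e1, fun r hr => ?_⟩
    have a1 : exp (A.β r z) * (⟪A.ν r z, w⟫ + σ) ≤ exp (A.β p z) * (⟪A.ν p z, w⟫ + σ) :=
      hmax r hr
    change exp (A.β r z) * ⟪A.ν r z, w⟫ ≤ exp (A.β p z) * ⟪A.ν p z, w⟫
    rw [e1] at a1 ⊢
    rcases le_total (exp (A.β r z)) (exp (A.β p z)) with a2 | a2
    · have := mul_le_mul_of_nonneg_left (t1 r) (exp_pos (A.β r z)).le
      linarith
    · have := mul_le_mul_of_nonneg_right a2 s0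
      linarith
  · intro ξ hξ
    have e1 : ((1 + (y + σ * t)) / (t + σ)) • w +
        (t + σ)⁻¹ • (E w + σ • A.ν p z - (y + σ * t) • w) =
        (t + σ)⁻¹ • (w + E w + σ • A.ν p z) := by
      rw [div_eq_inv_mul]
      module
    change L ξ = -⟪((1 + (y + σ * t)) / (t + σ)) • w +
      (t + σ)⁻¹ • (E w + σ • A.ν p z - (y + σ * t) • w), m.hor (z, w) ξ⟫
    rw [e1]
    exact hLe ξ hξ

end Pool.Agent.MP_3ee8cb_gt.DRB
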