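import Pool.Agent.MP_3ee8cb_gt.DRB.Top
import Pool.Agent.MP_3ee8cb_gt.DRB.RBS
import Pool.Agent.MP_3ee8cb_gt.DRB.RCTR
import Pool.Agent.MP_3ee8cb_gt.DRB.REQV
import Pool.Agent.MP_3ee8cb_gt.DRB.RINW
import Pool.Agent.MP_3ee8cb_gt.DRB.RLZ
import Pool.Agent.MP_3ee8cb_gt.DRB.RMOM
import Pool.Agent.MP_3ee8cb_gt.DRB.RNUM1
import Pool.Agent.MP_3ee8cb_gt.DRB.RNUM2
import Pool.Agent.MP_3ee8cb_gt.DRB.RTOU

/-! Rigidity under a larger explicit pinching. -/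

namespace Pool.Agent.MP_3ee8cb_gt.DRB

open DN (Dim dm)

variable [Dim]

theorem main : SLN.MainZ ((1 + 6 / max (dm : ℝ) 4) ^ 2 - 1) :=
  main_of sNUM1 sNUM2 sBS sLX sLZ sTOU sCTR sMOM sINW sEQV

end Pool.Agent.MP_3ee8cb_gt.DRB
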