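import Pool.Agent.MP_3ee8cb_gt.DRB.RNUM1
import Pool.Agent.MP_3ee8cb_gt.DRB.Num2

/-! The two scalar inequalities from finitely many numerical conditions. -/

namespace Pool.Agent.MP_3ee8cb_gt.DRB

open Real Set

namespace Gen

/-- The discriminant. -/
def dis (σ h e t : ℝ) : ℝ :=
  4 * ((1 - t) * (e * (t + σ) * (1 - σ) - σ ^ 2 * (1 + t))) - (h - 2 * σ * t - e * (t + σ)) ^ 2

theorem nu1 {σ h e F K a b P : ℝ} (s0 : 0 ≤ σ) (h0 : 0 ≤ h) (e0 : 0 ≤ e) (hF : F ^ 2 ≤ K)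
    (ha : K * (a + σ) ≤ 1 + σ) (da : 0 ≤ dis σ h e a) (db : 0 ≤ dis σ h e b)
    (hs : σ ^ 2 ≤ e * (1 - σ)) (P0 : 0 ≤ P) (hP : h - 2 * σ * b - e * (b + σ) ≤ P)
    (hb : 2 * h * P ≤ e * (b + σ) * (1 - σ) - σ ^ 2 * (1 + b)) : Nu1 σ h e F := by
  intro t x k t1 x0 x1
  have r0 : 0 < t + σ := pos_of_mul_pos_right (a := F ^ 2) (by linarith) (sq_nonneg F)
  have k1 := k.trans (mul_le_mul_of_nonneg_right hF r0.le)
  have K0 : 0 < K := pos_of_mul_pos_left (b := t + σ) (by linarith) r0.le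
  have k2 : a ≤ t := by
    have := le_of_mul_le_mul_left (ha.trans k1) K0
    linarith
  rcases le_total t b with hb' | hb'
  · have c := NUM1x.conc (g₀ := dis σ h e 0) (g₂ := 4 * e + e ^ 2)
      (g₁ := 4 * (e * (1 - σ) ^ 2) + 2 * (h - e * σ) * (2 * σ + e))
      (by positivity) k2 hb' (by unfold dis at *; linarith) (by unfold dis at *; linarith)
    have k3 := sq_nonneg (x - (h - 2 * σ * t - e * (t + σ)) / 2)
    unfold dis at c
    linarith
  · have u0 : 0 ≤ 1 - t := sub_nonneg.2 t1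
    have a1 : x ≤ 2 * h * (1 - t) := by
      have := mul_nonneg h0 (sq_nonneg (1 - t))
      linarith
    have a2 := mul_le_mul_of_nonneg_left a1 P0
    have a3 := mul_nonneg (sub_nonneg.2 hb') (show 0 ≤ 2 * σ + e by positivity)
    have a4 := mul_le_mul_of_nonneg_right (show h - 2 * σ * t - e * (t + σ) ≤ P by linarith) x0
    have a5 := mul_nonneg (sub_nonneg.2 hb') (sub_nonneg.2 hs)
    have a6 := mul_le_mul_of_nonneg_right
      (show 2 * h * P ≤ e * (t + σ) * (1 - σ) - σ ^ 2 * (1 + t) by linarith) u0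
    have a8 := sq_nonneg x
    linarith

variable {s K a mu g j q y x S A U : ℝ}

theorem small (a0 : 0 ≤ a) (m0 : 0 ≤ mu) (ag : a ≤ g) (hq : j * q = g) (j0 : 0 < j)
    (l2 : g * y ≤ 1) (ep : g * (x ^ 2 + x * s) + q * (1 - x ^ 2) ≤ 2)
    (em : 0 ≤ K * (a * mu + (g - a) * x ^ 2) * (x + s) - (2 - g * x ^ 2) * x -
      g * x ^ 2 * s - g * j * x ^ 3) (x0 : 0 ≤ x) (x1 : x ≤ 1)
    (S0 : -1 ≤ S) (S1 : S ≤ 1) (hA : A ^ 2 ≤ (1 - S ^ 2) * (1 - x ^ 2))
    (U1 : A + S * x + s ≤ U) (U2 : K / 2 * (x + s) * (1 - S) ≤ U)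
    (hy : x ^ 2 ≤ y) : A - S * x + s ≤ (1 - a * (x ^ 2 - mu)) * U := by
  have y1 : 0 ≤ 1 - x ^ 2 := by nlinarith
  have q0 : 0 ≤ q := nonneg_of_mul_nonneg_right (hq ▸ a0.trans ag) j0
  have l3 := mul_le_mul_of_nonneg_left hy (a0.trans ag)
  have b1 := mul_le_mul_of_nonneg_left U1 (show 0 ≤ 1 - g * x ^ 2 by linarith)
  have b2 := mul_le_mul_of_nonneg_left U2 (show 0 ≤ a * mu + (g - a) * x ^ 2 from
    add_nonneg (mul_nonneg a0 m0) (mul_nonneg (sub_nonneg.2 ag) (sq_nonneg x)))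
  have b3 := amgm (a := (j * x) ^ 2 * (1 - S)) (b := (1 + S) * (1 - x ^ 2))
    (c := j * x * A) (mul_nonneg (sq_nonneg _) (by linarith))
    (mul_nonneg (by linarith) y1) (by
      have := mul_le_mul_of_nonneg_left hA (sq_nonneg (j * x))
      linarith)
  have b4 := mul_le_mul_of_nonneg_left b3 (mul_nonneg q0 x0)
  have b5 := mul_nonneg (sub_nonneg.2 S1) em
  have b6 := mul_nonneg (mul_nonneg (show 0 ≤ 1 + S by linarith) x0) (sub_nonneg.2 ep)
  subst hq
  linarith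

theorem large (K0 : 0 < K) (sy : s ^ 2 < y) (y1 : y < 1)
    (e1 : a * (y - mu) ≤ log (K * (y - s ^ 2) / (1 - s ^ 2))) (e2 : a * (1 - mu) ≤ log K)
    (x1 : x ^ 2 ≤ 1) (hy : y ≤ x ^ 2) :
    a * (x ^ 2 - mu) ≤ log (K * (x ^ 2 - s ^ 2) / (1 - s ^ 2)) := by
  have d1 : 0 < 1 - s ^ 2 := by linarith
  have d2 : 0 < 1 - y := by linarith
  have r0 : 0 < K * (y - s ^ 2) / (1 - s ^ 2) := div_pos (mul_pos K0 (by linarith)) d1
  set t := (1 - x ^ 2) / (1 - y) with ht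
  have t0 : 0 ≤ t := div_nonneg (by linarith) d2.le
  have t1 : t ≤ 1 := (div_le_one d2).2 (by linarith)
  have t2 : x ^ 2 = t * y + (1 - t) := by
    have : t * (1 - y) = 1 - x ^ 2 := div_mul_cancel₀ _ d2.ne'
    linarith
  have c := strictConcaveOn_log_Ioi.concaveOn.2 (mem_Ioi.2 r0) (mem_Ioi.2 K0) t0
    (sub_nonneg.2 t1) (by ring)
  have e : t • (K * (y - s ^ 2) / (1 - s ^ 2)) + (1 - t) • K =
      K * (x ^ 2 - s ^ 2) / (1 - s ^ 2) := by
    rw [t2, smul_eq_mul, smul_eq_mul]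
    field_simp
    ring
  rw [e, smul_eq_mul, smul_eq_mul] at c
  have f1 := mul_le_mul_of_nonneg_left e1 t0
  have f2 := mul_le_mul_of_nonneg_left e2 (sub_nonneg.2 t1)
  refine le_trans (le_of_eq ?_) ((add_le_add f1 f2).trans c)
  rw [t2]
  ring

theorem nu2 {F : ℝ} (s0 : 0 ≤ s) (K0 : 0 < K) (F0 : 0 < F) (hF : K ≤ F ^ 2) (a0 : 0 ≤ a)
    (m0 : 0 ≤ mu) (ag : a ≤ g) (hq : j * q = g) (j0 : 0 < j) (l2 : g * y ≤ 1) (sy : s ^ 2 < y)
    (y1 : y < 1) (e1 : a * (y - mu) ≤ log (K * (y - s ^ 2) / (1 - s ^ 2)))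
    (e2 : a * (1 - mu) ≤ log K)
    (ep : ∀ x, 0 ≤ x → x ^ 2 ≤ y → g * (x ^ 2 + x * s) + q * (1 - x ^ 2) ≤ 2)
    (em : ∀ x, 0 ≤ x → x ^ 2 ≤ y → 0 ≤ K * (a * mu + (g - a) * x ^ 2) * (x + s) -
      (2 - g * x ^ 2) * x - g * x ^ 2 * s - g * j * x ^ 3) : Nu2 s F a mu := by
  intro x S A f W x0 x1 hS hA f0 hf W2 W1 hP
  obtain ⟨S0, S1⟩ := abs_le.1 ((sq_le_one_iff_abs_le_one S).1 hS)
  have W0 : 0 < W := (by positivity : 0 < F * (x + s)).trans_le W2
  have U0 : 0 < W / f := div_pos W0 f0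
  have U1 : A + S * x + s ≤ W / f := (le_div_iff₀ f0).2 (by linarith)
  have U2 : K / 2 * (x + s) * (1 - S) ≤ W / f := (le_div_iff₀ f0).2 (by
    have b1 := mul_le_mul_of_nonneg_left hf (show 0 ≤ F * (x + s) / 2 by positivity)
    have b2 := mul_le_mul_of_nonneg_right hF
      (mul_nonneg (show 0 ≤ (x + s) * f / 2 by positivity) (sub_nonneg.2 S1))
    linarith)
  rw [log_mul f0.ne' hP.ne', ← sub_sub, ← log_div W0.ne' f0.ne']
  generalize W / f = U at U0 U1 U2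
  have z1 : 0 ≤ 1 - x ^ 2 := by nlinarith
  rcases le_total (x ^ 2) y with hy | hy
  · have h1 := small a0 m0 ag hq j0 l2 (ep x x0.le hy) (em x x0.le hy) x0.le x1 S0 S1 hA U1 U2 hy
    have h2 := log_le_sub_one_of_pos (div_pos hP U0)
    rw [log_div hP.ne' U0.ne'] at h2
    have h3 := (div_le_iff₀ U0).2 h1
    linarith
  · refine (large K0 sy y1 e1 e2 (by linarith) hy).trans ?_
    have d1 : 0 < 1 - s ^ 2 := by linarith
    have d2 : 0 < x ^ 2 - s ^ 2 := by linarith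
    rw [← log_div U0.ne' hP.ne']
    refine log_le_log (by positivity) ?_
    rw [div_le_div_iff₀ d1 hP]
    have b3 := amgm (a := (1 - S) * (1 - x ^ 2)) (b := (1 + S) * (x - s) ^ 2)
      (c := (x - s) * A) (mul_nonneg (by linarith) z1)
      (mul_nonneg (by linarith) (sq_nonneg _)) (by
        have := mul_le_mul_of_nonneg_left hA (sq_nonneg (x - s))
        linarith)
    have b4 := mul_le_mul_of_nonneg_left b3 (show 0 ≤ K / 2 * (x + s) by positivity)
    have b5 := mul_le_mul_of_nonneg_right U2 d1.le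
    linarith

/-- A lower bound for the logarithm near one. -/
theorem log1 {r c : ℝ} (h1 : 1 ≤ r) (h : c * (r + 1) ≤ 2 * (r - 1)) : c ≤ log r := by
  have l := le_log_one_add_of_nonneg (sub_nonneg.2 h1)
  rw [add_sub_cancel] at l
  exact ((le_div_iff₀ (by linarith)).2 (by linarith)).trans l

/-- A lower bound for the logarithm near two and four. -/
theorem log2 {r c : ℝ} (k : ℕ) (r0 : 0 < r) (h : c ≤ 0.6931471803 * k + 1 - 2 ^ k / r) :
    c ≤ log r := by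
  have l := log_le_sub_one_of_pos (show 0 < 2 ^ k / r by positivity)
  rw [log_div (by positivity) r0.ne', log_pow] at l
  have := mul_le_mul_of_nonneg_right log_two_gt_d9.le (Nat.cast_nonneg (α := ℝ) k)
  linarith

end Gen

theorem nu1_four {F : ℝ} (hF : F ^ 2 ≤ 72 / 25) : Nu1 (1 / 4) (7 / 4) (333 / 250) F :=
  Gen.nu1 (a := 23 / 125) (b := 4 / 5) (P := 0) (by norm_num) (by norm_num)
    (by norm_num) hF (by norm_num) (by norm_num [Gen.dis]) (by norm_num [Gen.dis]) (by norm_num)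
    (by norm_num) (by norm_num) (by norm_num)

theorem nu2_four {F : ℝ} (F0 : 0 < F) (hF : 143 / 50 ≤ F ^ 2) :
    Nu2 (1 / 4) F (59 / 50) (399 / 1000) :=
  Gen.nu2 (g := 77 / 50) (j := 11 / 10) (q := 7 / 5) (y := 3 / 5) (by norm_num) (by norm_num)
    F0 hF (by norm_num) (by norm_num) (by norm_num) (by norm_num) (by norm_num) (by norm_num)
    (by norm_num) (by norm_num) (Gen.log1 (by norm_num) (by norm_num))
    (Gen.log2 2 (by norm_num) (by norm_num))
    (fun x _ hy => by nlinarith [sq_nonneg (x - 77 / 100)])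
    (fun x x0 _ => by
      nlinarith [mul_nonneg x0 (sq_nonneg (x - 11 / 20)), sq_nonneg (x - 11 / 20)])

theorem nu1_five {F : ℝ} (hF : F ^ 2 ≤ 303 / 100) : Nu1 (1 / 5) (7 / 5) (999 / 1000) F :=
  Gen.nu1 (a := 49 / 250) (b := 4 / 5) (P := 81 / 1000) (by norm_num) (by norm_num)
    (by norm_num) hF (by norm_num) (by norm_num [Gen.dis]) (by norm_num [Gen.dis]) (by norm_num)
    (by norm_num) (by norm_num) (by norm_num)

theorem nu2_five {F : ℝ} (F0 : 0 < F) (hF : 301 / 100 ≤ F ^ 2) :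
    Nu2 (1 / 5) F (69 / 50) (83 / 250) :=
  Gen.nu2 (g := 189 / 100) (j := 27 / 20) (q := 7 / 5) (y := 1 / 2) (by norm_num) (by norm_num)
    F0 hF (by norm_num) (by norm_num) (by norm_num) (by norm_num) (by norm_num) (by norm_num)
    (by norm_num) (by norm_num) (Gen.log1 (by norm_num) (by norm_num))
    (Gen.log2 2 (by norm_num) (by norm_num))
    (fun x _ hy => by nlinarith [sq_nonneg (x - 71 / 100)])
    (fun x x0 _ => by
      nlinarith [mul_nonneg x0 (sq_nonneg (x - 51 / 100)), sq_nonneg (x - 51 / 100)])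

theorem nu1_six {F : ℝ} (hF : F ^ 2 ≤ 81 / 25) : Nu1 (1 / 6) (7 / 6) (799 / 1000) F :=
  Gen.nu1 (a := 967 / 5000) (b := 4 / 5) (P := 16 / 125) (by norm_num) (by norm_num)
    (by norm_num) hF (by norm_num) (by norm_num [Gen.dis]) (by norm_num [Gen.dis]) (by norm_num)
    (by norm_num) (by norm_num) (by norm_num)

theorem nu2_six {F : ℝ} (F0 : 0 < F) (hF : 161 / 50 ≤ F ^ 2) :
    Nu2 (1 / 6) F (37 / 25) (57 / 200) :=
  Gen.nu2 (g := 21 / 10) (j := 3 / 2) (q := 7 / 5) (y := 11 / 25) (by norm_num) (by norm_num)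
    F0 hF (by norm_num) (by norm_num) (by norm_num) (by norm_num) (by norm_num) (by norm_num)
    (by norm_num) (by norm_num) (Gen.log1 (by norm_num) (by norm_num))
    (Gen.log2 2 (by norm_num) (by norm_num))
    (fun x _ hy => by nlinarith [sq_nonneg (x - 33 / 50)])
    (fun x x0 _ => by
      nlinarith [mul_nonneg x0 (sq_nonneg (x - 12 / 25)), sq_nonneg (x - 12 / 25)])

theorem nu1_seven {F : ℝ} (hF : F ^ 2 ≤ 347 / 100) : Nu1 (3 / 20) 1 (333 / 500) F :=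
  Gen.nu1 (a := 907 / 5000) (b := 4 / 5) (P := 16 / 125) (by norm_num) (by norm_num)
    (by norm_num) hF (by norm_num) (by norm_num [Gen.dis]) (by norm_num [Gen.dis]) (by norm_num)
    (by norm_num) (by norm_num) (by norm_num)

theorem nu2_seven {F : ℝ} (F0 : 0 < F) (hF : 173 / 50 ≤ F ^ 2) :
    Nu2 (3 / 20) F (79 / 50) (499 / 2000) :=
  Gen.nu2 (g := 56 / 25) (j := 8 / 5) (q := 7 / 5) (y := 2 / 5) (by norm_num) (by norm_num)
    F0 hF (by norm_num) (by norm_num) (by norm_num) (by norm_num) (by norm_num) (by norm_num)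
    (by norm_num) (by norm_num) (Gen.log1 (by norm_num) (by norm_num))
    (Gen.log2 2 (by norm_num) (by norm_num))
    (fun x _ hy => by nlinarith [sq_nonneg (x - 63 / 100)])
    (fun x x0 _ => by
      nlinarith [mul_nonneg x0 (sq_nonneg (x - 47 / 100)), sq_nonneg (x - 47 / 100)])

end Pool.Agent.MP_3ee8cb_gt.DRB
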