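import Pool.Agent.MP_3ee8cb_gt.DRB.Spec
import Pool.Agent.MP_3ee8cb_gt.DRB.Num2

/-! The two scalar inequalities from conditions in one variable. -/

namespace Pool.Agent.MP_3ee8cb_gt.DRB.Gn

open Real Set

theorem nu1_of {σ h e F a b : ℝ} (s0 : 0 ≤ σ) (e0 : 0 ≤ e) (hF : F ^ 2 * (a + σ) ≤ 1 + σ)
    (h1 : ∀ t, a ≤ t → t ≤ b → (h - 2 * σ * t - e * (t + σ)) ^ 2 ≤
      4 * ((1 - t) * (e * (t + σ) * (1 - σ) - σ ^ 2 * (1 + t))))
    (h2 : h ≤ 2 * σ * b + e * (b + σ))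
    (h3 : ∀ t, b ≤ t → σ ^ 2 * (1 + t) ≤ e * (t + σ) * (1 - σ)) : Nu1 σ h e F := by
  intro t x h0 t1 x0 _
  have ta : a ≤ t := by
    by_contra hc
    have p : 0 < F ^ 2 := by
      rcases (sq_nonneg F).eq_or_lt with k | k
      · rw [← k] at h0
        linarith
      · exact k
    nlinarith [mul_lt_mul_of_pos_left (not_le.1 hc) p]
  rcases le_total t b with k | k
  · nlinarith [h1 t ta k, sq_nonneg (x - (h - 2 * σ * t - e * (t + σ)) / 2)]
  · have a1 := mul_nonneg (sub_nonneg.2 t1) (sub_nonneg.2 (h3 t k))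
    have a2 : 0 ≤ 2 * σ * t + e * (t + σ) - h := by
      nlinarith [mul_le_mul_of_nonneg_left k s0, mul_le_mul_of_nonneg_left k e0]
    nlinarith [mul_nonneg x0 a2, sq_nonneg x]

theorem nu2_of {σ F a μ c y : ℝ} (s0 : 0 < σ) (s1 : σ ^ 2 < y) (y1 : y < 1) (F0 : 0 < F)
    (m0 : 0 ≤ a * μ) (ac : a ≤ c) (c0 : 0 ≤ c) (cy : c * y ≤ 1)
    (H : ∀ x, 0 ≤ x → x ^ 2 ≤ y → 0 ≤ 2 - c * x * (x + σ) ∧ c ^ 2 * x ^ 3 * (1 - x ^ 2) ≤
      (2 - c * x * (x + σ)) * (F ^ 2 * (a * μ + (c - a) * x ^ 2) * (x + σ) -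
        (2 - c * x ^ 2) * x - c * x ^ 2 * σ) ∧ 0 ≤ F ^ 2 * (a * μ + (c - a) * x ^ 2) * (x + σ) -
        (2 - c * x ^ 2) * x - c * x ^ 2 * σ)
    (e1 : a * (y - μ) ≤ log (F ^ 2 * (y - σ ^ 2) / (1 - σ ^ 2)))
    (e2 : a * (1 - μ) ≤ log (F ^ 2)) : Nu2 σ F a μ := by
  intro x S B f W x0 x1 hS hB f0 hf W2 W1 hP
  obtain ⟨S0, S1⟩ := abs_le.1 ((sq_le_one_iff_abs_le_one S).1 hS)
  have W0 : 0 < W := (by positivity : 0 < F * (x + σ)).trans_le W2
  have U0 : 0 < W / f := div_pos W0 f0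
  have U1 : B + S * x + σ ≤ W / f := (le_div_iff₀ f0).2 (by linarith)
  have U2 : F ^ 2 / 2 * (x + σ) * (1 - S) ≤ W / f := (le_div_iff₀ f0).2 (by
    have := mul_le_mul_of_nonneg_left hf (show 0 ≤ F * (x + σ) / 2 by positivity)
    linarith)
  rw [log_mul f0.ne' hP.ne', ← sub_sub, ← log_div W0.ne' f0.ne']
  generalize W / f = U at U0 U1 U2
  have K0 : 0 < F ^ 2 := by positivity
  generalize F ^ 2 = K at H e1 e2 U2 K0
  have z1 : 0 ≤ 1 - x ^ 2 := by nlinarith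
  rcases le_total (x ^ 2) y with hy | hy
  · obtain ⟨p1, p2, p3⟩ := H x x0.le hy
    have b1 := mul_le_mul_of_nonneg_left U1
      (show 0 ≤ 1 - c * x ^ 2 by linarith [mul_le_mul_of_nonneg_left hy c0])
    have b2 := mul_le_mul_of_nonneg_left U2
      (add_nonneg m0 (mul_nonneg (sub_nonneg.2 ac) (sq_nonneg x)))
    have b3 := amgm (c := c * x ^ 2 * B)
      (mul_nonneg (mul_nonneg (show 0 ≤ 1 + S by linarith) x0.le) p1)
      (mul_nonneg (sub_nonneg.2 S1) p3) (by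
        have k1 := mul_le_mul_of_nonneg_left hB (sq_nonneg (c * x ^ 2))
        have k2 := mul_le_mul_of_nonneg_left p2 (mul_nonneg (sub_nonneg.2 hS) x0.le)
        linarith)
    have h1 : B - S * x + σ ≤ (1 - a * (x ^ 2 - μ)) * U := by linarith
    have h2 := log_le_sub_one_of_pos (div_pos hP U0)
    rw [log_div hP.ne' U0.ne'] at h2
    have h3 := (div_le_iff₀ U0).2 h1
    linarith
  · have d1 : 0 < 1 - σ ^ 2 := by linarith
    have d2 : 0 < x ^ 2 - σ ^ 2 := by linarith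
    have d3 : 0 < 1 - y := by linarith
    have r0 : 0 < K * (y - σ ^ 2) / (1 - σ ^ 2) := div_pos (mul_pos K0 (by linarith)) d1
    obtain ⟨t, ht⟩ : ∃ t, t * (1 - y) = 1 - x ^ 2 := ⟨_, div_mul_cancel₀ _ d3.ne'⟩
    have t0 : 0 ≤ t := nonneg_of_mul_nonneg_left (ht ▸ z1) d3
    have t1 : t ≤ 1 := le_of_mul_le_mul_right (by linarith) d3
    have t2 : x ^ 2 = t * y + (1 - t) := by linarith
    have cc := strictConcaveOn_log_Ioi.concaveOn.2 (mem_Ioi.2 r0) (mem_Ioi.2 K0) t0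
      (sub_nonneg.2 t1) (by ring)
    have e : t • (K * (y - σ ^ 2) / (1 - σ ^ 2)) + (1 - t) • K =
        K * (x ^ 2 - σ ^ 2) / (1 - σ ^ 2) := by
      rw [t2, smul_eq_mul, smul_eq_mul]
      field_simp
      ring
    rw [e, smul_eq_mul, smul_eq_mul] at cc
    have f1 := mul_le_mul_of_nonneg_left e1 t0
    have f2 := mul_le_mul_of_nonneg_left e2 (sub_nonneg.2 t1)
    have f3 : a * (x ^ 2 - μ) = t * (a * (y - μ)) + (1 - t) * (a * (1 - μ)) := by
      rw [t2]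
      ring
    refine (f3.le.trans ((add_le_add f1 f2).trans cc)).trans ?_
    rw [← log_div U0.ne' hP.ne']
    refine log_le_log (by positivity) ?_
    rw [div_le_div_iff₀ d1 hP]
    have b3 := amgm (a := (1 - S) * (1 - x ^ 2)) (b := (1 + S) * (x - σ) ^ 2)
      (c := (x - σ) * B) (mul_nonneg (by linarith) z1)
      (mul_nonneg (by linarith) (sq_nonneg _)) (by
        have := mul_le_mul_of_nonneg_left hB (sq_nonneg (x - σ))
        linarith)
    have b4 := mul_le_mul_of_nonneg_left b3 (show 0 ≤ K / 2 * (x + σ) by positivity)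
    have b5 := mul_le_mul_of_nonneg_right U2 d1.le
    linarith

theorem lg1 {r v : ℝ} (h1 : 1 ≤ r) (h : v * (r + 1) ≤ 2 * (r - 1)) : v ≤ log r := by
  have := le_log_one_add_of_nonneg (sub_nonneg.2 h1)
  rw [add_sub_cancel] at this
  refine le_trans ?_ this
  rw [le_div_iff₀ (by linarith)]
  linarith

theorem lg2 {r v : ℝ} (h1 : 2 ≤ r) (h : (v - 0.693) * (r + 2) ≤ 2 * (r - 2)) : v ≤ log r := by
  have a := lg1 (r := r / 2) (v := v - 0.693) (by linarith) (by linarith)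
  have b := log_two_gt_d9
  rw [log_div (by linarith) two_ne_zero] at a
  linarith

end Pool.Agent.MP_3ee8cb_gt.DRB.Gn
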