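import Pool.Agent.MP_3ee8cb_gt.DRB.Gn

/-! The scalar inequalities in low dimensions. -/

namespace Pool.Agent.MP_3ee8cb_gt.DRB.Gn

open Real

theorem bn {a b x : ℝ} (h1 : a ≤ x) (h2 : x ≤ b) (i j : ℕ) : 0 ≤ (x - a) ^ i * (b - x) ^ j :=
  mul_nonneg (pow_nonneg (sub_nonneg.2 h1) i) (pow_nonneg (sub_nonneg.2 h2) j)

theorem a4 : Nu1 (1 / 4) (7 / 4) (133 / 100) (33 / 20) :=
  nu1_of (a := (209 / 1000)) (b := (39 / 50)) (by norm_num) (by norm_num) (by norm_num)
    (fun t h1 h2 => by linarith [bn h1 h2 2 0, bn h1 h2 1 1, bn h1 h2 0 2]) (by norm_num)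
    fun t h => by linarith

theorem b4 : Nu2 (1 / 4) (41 / 25) (21 / 20) (399 / 1000) := by
  refine nu2_of (c := (8 / 5)) (y := (3 / 5)) (by norm_num) (by norm_num) (by norm_num)
    (by norm_num) (by norm_num) (by norm_num) (by norm_num) (by norm_num) (fun x h0 h => ?_)
    (lg1 (by norm_num) (by norm_num)) (lg2 (by norm_num) (by norm_num))
  have h1 : x ≤ (39 / 50) := by nlinarith
  rcases le_total x (2 / 5) with k | k
  · have := And.intro (And.intro (bn h0 k 5 0) (bn h0 k 4 1)) (bn h0 k 3 2)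
    have := And.intro (And.intro (bn h0 k 2 3) (bn h0 k 1 4)) (bn h0 k 0 5)
    refine ⟨?_, ?_, ?_⟩ <;> linarith
  · have := And.intro (And.intro (bn k h1 5 0) (bn k h1 4 1)) (bn k h1 3 2)
    have := And.intro (And.intro (bn k h1 2 3) (bn k h1 1 4)) (bn k h1 0 5)
    refine ⟨?_, ?_, ?_⟩ <;> linarith

theorem a5 : Nu1 (1 / 5) (7 / 5) (997 / 1000) (171 / 100) :=
  nu1_of (a := (21 / 100)) (b := (43 / 50)) (by norm_num) (by norm_num) (by norm_num)
    (fun t h1 h2 => by linarith [bn h1 h2 2 0, bn h1 h2 1 1, bn h1 h2 0 2]) (by norm_num)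
    fun t h => by linarith

theorem b5 : Nu2 (1 / 5) (17 / 10) (7 / 5) (333 / 1000) := by
  refine nu2_of (c := (19 / 10)) (y := (1 / 2)) (by norm_num) (by norm_num) (by norm_num)
    (by norm_num) (by norm_num) (by norm_num) (by norm_num) (by norm_num) (fun x h0 h => ?_)
    (lg1 (by norm_num) (by norm_num)) (lg2 (by norm_num) (by norm_num))
  have h1 : x ≤ (71 / 100) := by nlinarith
  rcases le_total x (2 / 5) with k | k
  · have := And.intro (And.intro (bn h0 k 5 0) (bn h0 k 4 1)) (bn h0 k 3 2)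
    have := And.intro (And.intro (bn h0 k 2 3) (bn h0 k 1 4)) (bn h0 k 0 5)
    refine ⟨?_, ?_, ?_⟩ <;> linarith
  · have := And.intro (And.intro (bn k h1 5 0) (bn k h1 4 1)) (bn k h1 3 2)
    have := And.intro (And.intro (bn k h1 2 3) (bn k h1 1 4)) (bn k h1 0 5)
    refine ⟨?_, ?_, ?_⟩ <;> linarith

theorem a6 : Nu1 (1 / 6) (7 / 6) (399 / 500) (89 / 50) :=
  nu1_of (a := (201 / 1000)) (b := (23 / 25)) (by norm_num) (by norm_num) (by norm_num)
    (fun t h1 h2 => by linarith [bn h1 h2 2 0, bn h1 h2 1 1, bn h1 h2 0 2]) (by norm_num)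
    fun t h => by linarith

theorem b6 : Nu2 (1 / 6) (71 / 40) (29 / 20) (57 / 200) := by
  refine nu2_of (c := 2) (y := (12 / 25)) (by norm_num) (by norm_num) (by norm_num)
    (by norm_num) (by norm_num) (by norm_num) (by norm_num) (by norm_num) (fun x h0 h => ?_)
    (lg1 (by norm_num) (by norm_num)) (lg2 (by norm_num) (by norm_num))
  have h1 : x ≤ (7 / 10) := by nlinarith
  rcases le_total x (2 / 5) with k | k
  · have := And.intro (And.intro (bn h0 k 5 0) (bn h0 k 4 1)) (bn h0 k 3 2)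
    have := And.intro (And.intro (bn h0 k 2 3) (bn h0 k 1 4)) (bn h0 k 0 5)
    refine ⟨?_, ?_, ?_⟩ <;> linarith
  · have := And.intro (And.intro (bn k h1 5 0) (bn k h1 4 1)) (bn k h1 3 2)
    have := And.intro (And.intro (bn k h1 2 3) (bn k h1 1 4)) (bn k h1 0 5)
    refine ⟨?_, ?_, ?_⟩ <;> linarith

theorem a7 : Nu1 (3 / 20) 1 (133 / 200) (37 / 20) :=
  nu1_of (a := (93 / 500)) (b := (47 / 50)) (by norm_num) (by norm_num) (by norm_num)
    (fun t h1 h2 => by linarith [bn h1 h2 2 0, bn h1 h2 1 1, bn h1 h2 0 2]) (by norm_num)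
    fun t h => by linarith

theorem b7 : Nu2 (3 / 20) (369 / 200) (31 / 20) (249 / 1000) := by
  refine nu2_of (c := (11 / 5)) (y := (11 / 25)) (by norm_num) (by norm_num) (by norm_num)
    (by norm_num) (by norm_num) (by norm_num) (by norm_num) (by norm_num) (fun x h0 h => ?_)
    (lg1 (by norm_num) (by norm_num)) (lg2 (by norm_num) (by norm_num))
  have h1 : x ≤ (67 / 100) := by nlinarith
  rcases le_total x (2 / 5) with k | k
  · have := And.intro (And.intro (bn h0 k 5 0) (bn h0 k 4 1)) (bn h0 k 3 2)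
    have := And.intro (And.intro (bn h0 k 2 3) (bn h0 k 1 4)) (bn h0 k 0 5)
    refine ⟨?_, ?_, ?_⟩ <;> linarith
  · have := And.intro (And.intro (bn k h1 5 0) (bn k h1 4 1)) (bn k h1 3 2)
    have := And.intro (And.intro (bn k h1 2 3) (bn k h1 1 4)) (bn k h1 0 5)
    refine ⟨?_, ?_, ?_⟩ <;> linarith

end Pool.Agent.MP_3ee8cb_gt.DRB.Gn
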