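import Pool.Agent.MP_3ee8cb_gt.DRB.All
import Pool.Agent.MP_3ee8cb_gt.DRB.Low
import Pool.Agent.MP_3ee8cb_gt.DQK.Alg
import Pool.Agent.MP_3ee8cb_gt.DQK.Port

/-! Rigidity under a larger explicit pinching with the sharp algebra. -/

namespace Pool.Agent.MP_3ee8cb_gt.DRB

open DN (Dim dm)

variable [Dim]

open Set Filter Topology MeasureTheory Real DN DZ
open DQ (Hs Sq Tq)
open CR (Met UT dd ng)
open scoped RealInnerProductSpace

theorem sharp {σ k e F₀ F₁ a μ : ℝ} (s0 : 0 ≤ σ) (s1 : σ < 1) (k0 : 0 ≤ k)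
    (e0 : 0 ≤ e) (e4 : (dm - 1) * e < 4) (f0 : 0 < F₀) (f2 : 5 / 2 ≤ F₀ ^ 2) (f01 : F₀ < F₁)
    (a0 : 0 < a) (mu : μ * (dm + 1) < 2) (n1 : Nu1 σ k e F₁) (n2 : Nu2 σ F₀ a μ) :
    SLN.MainZ ((1 + k) ^ 2 - 1) := by
  have ee : √e ^ 2 = e := sq_sqrt e0
  have ll : log F₀ < log F₁ := log_lt_log f0 f01
  intro g h C C' Γ Λ _ _ _ _ Φ Ψ ρ G₀ qg qh cg ch dΓ dΛ cj₀ kh
  have kh' : TB.CurvLe h 1 := ⟨C', ch, fun x u v => by simpa using (kh x u v).2⟩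
  obtain ⟨m₀, o₀, l₀⟩ := sFRM g C Γ Φ qg cg
  obtain ⟨m, o, l⟩ := sFRM h C' Λ Ψ qh ch
  have j := sJAC m o
  obtain ⟨O, aO⟩ := sACT h C' Λ Ψ qh ch m o l dΛ
  obtain ⟨lg, hl, hd⟩ := DNFL.had h C' Λ Ψ qh ch m 1 o j l one_pos kh'
  obtain ⟨-, s, F, -, cj, fp⟩ :=
    DNFL.flp g h C C' Γ Λ Φ Ψ ρ G₀ qg qh cg ch dΓ dΛ cj₀ 1 one_pos kh'
  have cs : ∀ u v : V, 0 ≤ ‖u‖ ^ 2 * ‖v‖ ^ 2 - ⟪u, v⟫ ^ 2 := fun u v => by
    have := real_inner_mul_inner_self_le u v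
    rw [real_inner_self_eq_norm_sq, real_inner_self_eq_norm_sq] at this
    nlinarith
  have u1 : m.Up 1 := fun y u v => by
    have := (kh y (m.R y u) (m.R y v)).2
    rw [(l.sec o y u v).1, ← (l.sec o y u v).2]
    linarith
  have d1 : m.Dn ((1 + k) ^ 2) := fun y u v => by
    have := (kh y (m.R y u) (m.R y v)).1
    rw [(l.sec o y u v).1, ← (l.sec o y u v).2]
    linarith
  have u0 : m.Up 0 := fun y u v =>
    le_trans (mul_le_mul_of_nonneg_right zero_le_one (cs u v)) (u1 y u v)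
  have yw : YW m lg := ⟨o, j, hl, u0⟩
  have as := sASY h C' Λ Ψ qh ch kh'
  obtain ⟨ν, hν⟩ := sEXA h C' Λ Ψ qh ch m lg kh' as yw l hd
  have nb : NB h C' Ψ m lg ν := ⟨kh', yw, l, hd, as, sBC h C' Λ Ψ qh ch kh', fun w => (hν w).1,
    fun w => sB1 m lg _ _ yw (hν w).1, fun w => (hν w).2⟩
  have B := sBF sMOV sLIP sGR g h C C' Γ Λ Φ Ψ ρ F qg qh cg ch dΓ dΛ cj m lg ν nb fp
  have G := sBG m lg _ _ _ B
  have H := DQ.sBH m lg _ _ _ B G
  have K := sBS m lg _ _ _ B G H σ s0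
  have X := xw g C Γ Φ qg cg m₀ o₀ l₀
  have b1 : (1 : ℝ) ≤ 1 + k := by linarith
  have HS : ∀ p z, Hs m k ((fam Ψ F ν).ν p) z := fun p z => by
    have := DQ.sHES m lg (1 + k) _ _ yw b1 (B.isb p)
      (DQ.sHD m lg _ yw b1 (DQ.sJ2 m _ o j b1 u1 d1))
      (DQ.sAP m lg _ _ yw (DQ.sTH m lg yw) (B.isb p) (B.b1 p)) z
    rwa [add_sub_cancel_left] at this
  obtain ⟨-, x2, x3⟩ := DQ.sLX m lg _ _ _ B G H
  have S : Sq m lg (dd g) √e (us (fam Ψ F ν) σ) ((fam Ψ F ν).C (log F₁))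
      ((fam Ψ F ν).C (log F₀)) (Tq (fam Ψ F ν)) :=
    ⟨sLX m lg _ _ _ B G H σ K, sLZ m lg _ _ _ B G H σ k s0 K k0 HS,
      sTOU m lg _ _ _ B G H σ k _ F₁ s0 s1 K k0 (by linarith) (ee.symm ▸ n1) HS,
      x2 _, ⟨_, sub_pos.2 ll, x3 _ _⟩, sINW m lg _ _ _ B G H sMS (sMOM sMS) (sCTR m lg _ _ _ B G H)
        σ F₀ a μ s0 K f0 f2 a0 mu n2⟩
  have ε4 : (dm - 1) * √e ^ 2 < 4 := ee.symm ▸ e4
  obtain ⟨f, Z⟩ := DQ.Shp.zero m₀ m lg _ _ _ _ _ _ sMS X yw ε4 S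
  have L := DQ.Shp.fl m₀ m lg _ _ _ _ _ _ sMS X yw ε4 S f Z
  have J := DQ.Shp.ja m₀ m lg _ _ _ _ _ _ sMS X yw ε4 S f Z L
  have E := sEQV g h C C' Γ Λ Φ Ψ ρ F qg qh cg ch dΓ dΛ cj m lg ν O σ _ _ f sMS nb aO ll.le Z
  have Su := sONTO g h C C' Γ Λ Φ Ψ ρ F qg qh cg ch dΓ dΛ cj m lg ν f _ nb L.continuous
    fun p => G.near p _ _ (Z.mem _)
  have J' := J.mono fun x hx => DQK.jb _ _ _ sMS ε4 hx.2
  have W := sVOL RVOL.veq RVOL.area g h C C' Γ Λ Φ Ψ ρ F qg qh cg ch dΓ dΛ cj m₀ m f kh' o₀ o l₀ l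
    L Su E (J'.mono fun x hx => hx.1)
  refine sEND2 g h C C' Γ Λ Φ Ψ ρ F qg qh cg ch dΓ dΛ cj m₀ m lg ν f o₀ (sJAC m₀ o₀) l₀ nb
    L.continuous ?_
  filter_upwards [J, J', W] with x h1 h2 h3
  exact ⟨h1.1, DQ.sEND1 m lg _ _ _ B G H sMS x (f x) (h2.2 h3)⟩

theorem main7 :
    SLN.MainZ ((1 + (if dm ≤ 7 then 7 else 6) / max (dm : ℝ) 4) ^ 2 - 1) := by
  split_ifs with h
  · rcases le_total dm 4 with k | k
    · have k' : (dm : ℝ) ≤ 4 := by exact_mod_cast k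
      rw [max_eq_right k']
      exact sharp (by norm_num) (by norm_num) (by norm_num) (by norm_num) (by linarith)
        (by norm_num) (by norm_num) (by norm_num) (by norm_num) (by linarith) Gn.a4 Gn.b4
    · have k' : (4 : ℝ) ≤ dm := by exact_mod_cast k
      rw [max_eq_left k']
      have e : dm = 4 ∨ dm = 5 ∨ dm = 6 ∨ dm = 7 := by omega
      rcases e with e | e | e | e
      · have e' : (dm : ℝ) = 4 := by exact_mod_cast e
        rw [e']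
        exact sharp (by norm_num) (by norm_num) (by norm_num) (by norm_num) (by linarith)
          (by norm_num) (by norm_num) (by norm_num) (by norm_num) (by linarith) Gn.a4 Gn.b4
      · have e' : (dm : ℝ) = 5 := by exact_mod_cast e
        rw [e']
        exact sharp (by norm_num) (by norm_num) (by norm_num) (by norm_num) (by linarith)
          (by norm_num) (by norm_num) (by norm_num) (by norm_num) (by linarith) Gn.a5 Gn.b5
      · have e' : (dm : ℝ) = 6 := by exact_mod_cast e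
        rw [e']
        exact sharp (by norm_num) (by norm_num) (by norm_num) (by norm_num) (by linarith)
          (by norm_num) (by norm_num) (by norm_num) (by norm_num) (by linarith) Gn.a6 Gn.b6
      · have e' : (dm : ℝ) = 7 := by exact_mod_cast e
        rw [e', div_self (by norm_num)]
        exact sharp (by norm_num) (by norm_num) (by norm_num) (by norm_num) (by linarith)
          (by norm_num) (by norm_num) (by norm_num) (by norm_num) (by linarith) Gn.a7 Gn.b7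
  · exact main

end Pool.Agent.MP_3ee8cb_gt.DRB
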