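import Pool.Agent.MP_3ee8cb_gt.DQ.Spec

/-! Rigidity under a larger explicit pinching: definitions and statements of the blocks. -/

namespace Pool.Agent.MP_3ee8cb_gt.DRB

open Set Filter Topology MeasureTheory Real
open scoped RealInnerProductSpace

noncomputable section

/-! ### Two scalar inequalities -/

/-- The inequality behind the bound on the tangential part. -/
def Nu1 (σ h e F : ℝ) : Prop := ∀ t x : ℝ, 1 + σ ≤ F ^ 2 * (t + σ) → t ≤ 1 → 0 ≤ x →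
  x ≤ h * (1 - t ^ 2) →
    h * x + σ ^ 2 - (x + σ * t) ^ 2 ≤ e * (t + σ) * ((1 - σ) * (1 - t) + x)

/-- The inequality behind the inward direction. -/
def Nu2 (σ F a μ : ℝ) : Prop := ∀ x S B f U : ℝ, 0 < x → x ≤ 1 → S ^ 2 ≤ 1 →
  B ^ 2 ≤ (1 - S ^ 2) * (1 - x ^ 2) → 0 < f → F * f * (1 - S) ≤ 2 → F * (x + σ) ≤ U →
  f * (B + S * x + σ) ≤ U → 0 < B - S * x + σ →
    a * (x ^ 2 - μ) ≤ log U - log (f * (B - S * x + σ))

def SNUM1 : Prop := ∀ s F : ℝ, 0 < s → s ≤ 1 / 4 → s * F ^ 2 ≤ 0.38 + 1.07 * s →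
  Nu1 s (6 * s) (3.98 * s) F

def SNUM2 : Prop := ∀ s F : ℝ, 0 < s → s ≤ 1 / 4 → 0 < F → 0.38 + 1.05 * s ≤ s * F ^ 2 →
  Nu2 s F (2.7 / (1 + 5 * s)) (1.99 * s / (1 + s))

open DN (Dim dm)

variable [Dim]

open DN DZ
open DQ (Hs BH OnH Tc Tq Lz Inw Zq)
open CR (Met UT)

/-! ### The support function -/

/-- The shifted two point function. -/
def gs (σ : ℝ) (b : V → ℝ) (ν : V → V) (q : V × V) : ℝ := exp (b q.1) * (⟪ν q.1, q.2⟫ + σ)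

/-- The support function. -/
def us {P : Type} (A : Fam P) (σ : ℝ) (x z w : V) : ℝ :=
  log (sSup ((fun p => gs σ (A.β p) (A.ν p) (z, w)) '' {p | A.pr p = x}))

/-- The maximum is attained and depends continuously on the data. -/
structure BS {P : Type} (A : Fam P) (σ : ℝ) : Prop where
  max : ∀ x z w, ‖w‖ = 1 → ∃ p, A.pr p = x ∧ 0 < gs σ (A.β p) (A.ν p) (z, w) ∧
    us A σ x z w = log (gs σ (A.β p) (A.ν p) (z, w)) ∧
    ∀ p', A.pr p' = x → gs σ (A.β p') (A.ν p') (z, w) ≤ gs σ (A.β p) (A.ν p) (z, w)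
  cu : ∀ x, ContinuousOn (fun q : V × V => us A σ x q.1 q.2) {q | ‖q.2‖ = 1}

def SBS : Prop := OnH fun _ _ _ _ _ A => ∀ σ, 0 ≤ σ → BS A σ

def SLX : Prop := OnH fun _ _ dX _ _ A => ∀ σ, BS A σ →
  ∀ x x' z w, ‖w‖ = 1 → |us A σ x z w - us A σ x' z w| ≤ dX x x'

def SLZ : Prop := OnH fun m _ dX _ _ A => ∀ σ h, 0 ≤ σ → BS A σ → 0 ≤ h →
  (∀ p z, Hs m h (A.ν p) z) → Lz dX (us A σ)

def STOU : Prop := OnH fun m _ _ _ _ A => ∀ σ h ε F, 0 ≤ σ → σ < 1 → BS A σ → 0 ≤ h → 0 < F →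
  Nu1 σ h (ε ^ 2) F → (∀ p z, Hs m h (A.ν p) z) → ∀ x z w, z ∈ A.C (log F) x → ‖w‖ = 1 →
    Tc m (fun q => us A σ x q.1 q.2) ε (Tq A x z w) (z, w)

/-- A point where all functions of a fibre are small. -/
def Ctr {P : Type} (A : Fam P) : Prop :=
  ∀ x, ∃ y, ∀ p, A.pr p = x → exp (A.β p y) ^ 2 ≤ 5 / 2

def SCTR : Prop := OnH fun _ _ _ _ _ A => Ctr A

/-- The third absolute moment. -/
def Mom : Prop := ∀ e : V, ‖e‖ = 1 →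
  2 * ∫ w, |⟪un w, e⟫| ∂mS ≤ (dm + 1) * ∫ w, |⟪un w, e⟫| ^ 3 ∂mS

def SMOM : Prop := MS → Mom

def SINW : Prop := OnH fun _ lg _ _ _ A => MS → Mom → Ctr A → ∀ σ F a μ : ℝ, 0 ≤ σ → BS A σ →
  0 < F → 5 / 2 ≤ F ^ 2 → 0 < a → μ * (dm + 1) < 2 → Nu2 σ F a μ →
    Inw lg (us A σ) (A.C (log F))

def SEQV : Prop := On2 fun g h _ C' Γ Λ _ _ _ _ _ Ψ ρ F => ∀ m lg ν O σ R R₀ f, MS →
  NB h C' Ψ m lg ν → Act m Λ O → R₀ ≤ R →
  Zq lg (CR.dd g) (us (fam Ψ F ν) σ) ((fam Ψ F ν).C R) ((fam Ψ F ν).C R₀) f →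
    ∀ (γ : Γ) x, f (γ • x) = ρ γ • f x

end

end Pool.Agent.MP_3ee8cb_gt.DRB
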