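import Pool.Agent.MP_3ee8cb_gt.DRB.Low

/-! Admissible constants from finitely many rational inequalities. -/

namespace Pool.Agent.MP_3ee8cb_gt.DRB.T7

open Real Gn

/-- Admissible constants in dimension `n` for the pinching `1 + k`. -/
def Pk (n k : ℝ) : Prop := ∃ σ e F₀ F₁ a μ : ℝ, 0 ≤ σ ∧ σ < 1 ∧ 0 ≤ e ∧ (n - 1) * e < 4 ∧
  0 < F₀ ∧ 5 / 2 ≤ F₀ ^ 2 ∧ F₀ < F₁ ∧ 0 < a ∧ μ * (n + 1) < 2 ∧ Nu1 σ k e F₁ ∧ Nu2 σ F₀ a μ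

theorem b5 {a b x : ℝ} (h1 : a ≤ x) (h2 : x ≤ b) :
    (0 ≤ (x - a) ^ 5 * (b - x) ^ 0 ∧ 0 ≤ (x - a) ^ 4 * (b - x) ^ 1 ∧
      0 ≤ (x - a) ^ 3 * (b - x) ^ 2) ∧ 0 ≤ (x - a) ^ 2 * (b - x) ^ 3 ∧
      0 ≤ (x - a) ^ 1 * (b - x) ^ 4 ∧ 0 ≤ (x - a) ^ 0 * (b - x) ^ 5 :=
  ⟨⟨bn h1 h2 5 0, bn h1 h2 4 1, bn h1 h2 3 2⟩, bn h1 h2 2 3, bn h1 h2 1 4, bn h1 h2 0 5⟩

/-- A lower bound of the logarithm. -/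
def Lg (m : ℕ) (r v : ℝ) : Prop := 2 ^ m ≤ r ∧ v ≤ 0.693147 * m +
  2 * ((r - 2 ^ m) / (r + 2 ^ m) + ((r - 2 ^ m) / (r + 2 ^ m)) ^ 3 / 3 +
    ((r - 2 ^ m) / (r + 2 ^ m)) ^ 5 / 5)

theorem Lg.le {m : ℕ} {r v : ℝ} (h : Lg m r v) : v ≤ log r := by
  obtain ⟨h1, h2⟩ := h
  have p : (0 : ℝ) < 2 ^ m := by positivity
  have q : 0 < r + 2 ^ m := by linarith
  have a := sum_range_le_log_div (x := (r - 2 ^ m) / (r + 2 ^ m))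
    (div_nonneg (by linarith) q.le) ((div_lt_one q).2 (by linarith)) 3
  have e : (1 + (r - 2 ^ m) / (r + 2 ^ m)) / (1 - (r - 2 ^ m) / (r + 2 ^ m)) = r / 2 ^ m := by
    rw [div_eq_div_iff (sub_pos.2 ((div_lt_one q).2 (by linarith))).ne' p.ne']
    field_simp
    ring
  rw [e, log_div (by linarith) p.ne', log_pow] at a
  simp only [Finset.sum_range_succ, Finset.sum_range_zero] at a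
  have b := mul_le_mul_of_nonneg_left log_two_gt_d9.le (Nat.cast_nonneg (α := ℝ) m)
  have c : (0 : ℝ) ≤ m := Nat.cast_nonneg m
  norm_num at a b h2 ⊢
  linarith

theorem mk {n k σ e F₀ F₁ a μ c y r t u : ℝ} (m₁ m₂ : ℕ)
    (h0 : 0 < σ ∧ σ < 1 ∧ 0 ≤ e ∧ (n - 1) * e < 4 ∧ 0 < F₀ ∧ 5 / 2 ≤ F₀ ^ 2 ∧ F₀ < F₁ ∧ 0 < a ∧
      μ * (n + 1) < 2 ∧ 0 ≤ μ)
    (h1 : F₁ ^ 2 * (t + σ) ≤ 1 + σ ∧ t < u ∧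
      (k - 2 * σ * t - e * (t + σ)) ^ 2 ≤
        4 * ((1 - t) * (e * (t + σ) * (1 - σ) - σ ^ 2 * (1 + t))) ∧
      (k - 2 * σ * u - e * (u + σ)) ^ 2 ≤
        4 * ((1 - u) * (e * (u + σ) * (1 - σ) - σ ^ 2 * (1 + u))) ∧
      k ≤ 2 * σ * u + e * (u + σ) ∧ σ ^ 2 * (1 + u) ≤ e * (u + σ) * (1 - σ) ∧
      σ ^ 2 ≤ e * (1 - σ))
    (h2 : σ ^ 2 < y ∧ y < 1 ∧ a ≤ c ∧ c * y ≤ 1 ∧ c * σ < 1 ∧ 0 ≤ r ∧ y ≤ r ^ 2)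
    (h3 : (2 ^ m₁ ≤ F₀ ^ 2 * (y - σ ^ 2) / (1 - σ ^ 2) ∧ a * (y - μ) ≤ 0.693147 * m₁ +
      2 * ((F₀ ^ 2 * (y - σ ^ 2) / (1 - σ ^ 2) - 2 ^ m₁) /
        (F₀ ^ 2 * (y - σ ^ 2) / (1 - σ ^ 2) + 2 ^ m₁) +
        ((F₀ ^ 2 * (y - σ ^ 2) / (1 - σ ^ 2) - 2 ^ m₁) /
          (F₀ ^ 2 * (y - σ ^ 2) / (1 - σ ^ 2) + 2 ^ m₁)) ^ 3 / 3 +
        ((F₀ ^ 2 * (y - σ ^ 2) / (1 - σ ^ 2) - 2 ^ m₁) /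
          (F₀ ^ 2 * (y - σ ^ 2) / (1 - σ ^ 2) + 2 ^ m₁)) ^ 5 / 5)) ∧
      2 ^ m₂ ≤ F₀ ^ 2 ∧ a * (1 - μ) ≤ 0.693147 * m₂ +
      2 * ((F₀ ^ 2 - 2 ^ m₂) / (F₀ ^ 2 + 2 ^ m₂) + ((F₀ ^ 2 - 2 ^ m₂) / (F₀ ^ 2 + 2 ^ m₂)) ^ 3 / 3 +
        ((F₀ ^ 2 - 2 ^ m₂) / (F₀ ^ 2 + 2 ^ m₂)) ^ 5 / 5))
    (H : ∀ x, 0 ≤ x → x ≤ r → c ^ 2 * x ^ 3 * (1 - x ^ 2) ≤
      (2 - c * x * (x + σ)) * (F₀ ^ 2 * (a * μ + (c - a) * x ^ 2) * (x + σ) -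
        (2 - c * x ^ 2) * x - c * x ^ 2 * σ)) : Pk n k := by
  obtain ⟨s0, s1, e0, e4, f0, f2, f1, a0, mu, m0⟩ := h0
  obtain ⟨b1, b2, b3, b4, b5, b6, b7⟩ := h1
  obtain ⟨c1, c2, c3, c4, c5, c6, c7⟩ := h2
  have c0 : 0 ≤ c := a0.le.trans c3
  refine ⟨σ, e, F₀, F₁, a, μ, s0.le, s1, e0, e4, f0, f2, f1, a0, mu,
    nu1_of s0.le e0 b1 (fun w w1 w2 => ?_) b5 fun w w1 => ?_,
    nu2_of s0 c1 c2 f0 (mul_nonneg a0.le m0) c3 c0 c4 (fun x x0 hx => ?_)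
      (Lg.le (m := m₁) h3.1) (Lg.le (m := m₂) h3.2)⟩
  · have k1 := mul_le_mul_of_nonneg_left b3 (sub_nonneg.2 w2)
    have k2 := mul_le_mul_of_nonneg_left b4 (sub_nonneg.2 w1)
    have k3 := mul_nonneg (mul_nonneg (mul_nonneg (sub_nonneg.2 w1) (sub_nonneg.2 w2))
      (sub_pos.2 b2).le) (add_nonneg (sq_nonneg (2 * σ + e))
        (mul_nonneg (by norm_num : (0 : ℝ) ≤ 4) (sub_nonneg.2 b7)))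
    refine le_of_mul_le_mul_left ?_ (sub_pos.2 b2)
    linarith
  · linarith [mul_le_mul_of_nonneg_left b7 (sub_nonneg.2 w1)]
  · have x1 : x ≤ 1 := by nlinarith
    have xr : x ≤ r := abs_le_of_sq_le_sq' (hx.trans c7) c6 |>.2
    have p : 0 < 2 - c * x * (x + σ) := by
      nlinarith [mul_le_mul_of_nonneg_left hx c0,
        mul_le_mul_of_nonneg_left x1 (mul_nonneg c0 s0.le)]
    have q := H x x0 xr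
    have z : 0 ≤ c ^ 2 * x ^ 3 * (1 - x ^ 2) :=
      mul_nonneg (by positivity) (by linarith)
    exact ⟨p.le, q, nonneg_of_mul_nonneg_right (z.trans q) p⟩

end Pool.Agent.MP_3ee8cb_gt.DRB.T7
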