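import Pool.Agent.MP_3ee8cb_gt.DRB.Gen

/-! The table of constants for the pinching `1 + 7 / max n 4`. -/

namespace Pool.Agent.MP_3ee8cb_gt.DRB

open Real Set

/-- Admissible constants in dimension `n` for the pinching `1 + k`. -/
def Pack (n k : ℝ) : Prop := ∃ σ e F₀ F₁ a μ : ℝ, 0 ≤ σ ∧ σ < 1 ∧ 0 ≤ e ∧ (n - 1) * e < 4 ∧
  0 < F₀ ∧ 5 / 2 ≤ F₀ ^ 2 ∧ F₀ < F₁ ∧ 0 < a ∧ μ * (n + 1) < 2 ∧ Nu1 σ k e F₁ ∧ Nu2 σ F₀ a μ

namespace Tab

theorem mk' {n k s e K₀ K₁ a μ : ℝ} (h : 0 ≤ s ∧ s < 1 ∧ 0 ≤ e ∧ (n - 1) * e < 4 ∧ 5 / 2 ≤ K₀ ∧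
      K₀ < K₁ ∧ 0 < a ∧ μ * (n + 1) < 2) (n1 : ∀ F, F ^ 2 ≤ K₁ → Nu1 s k e F)
    (n2 : ∀ F, 0 < F → K₀ ≤ F ^ 2 → Nu2 s F a μ) : Pack n k := by
  obtain ⟨h1, h2, h3, h4, h5, h6, h7, h8⟩ := h
  have q0 : √K₀ ^ 2 = K₀ := sq_sqrt (by linarith)
  have q1 : √K₁ ^ 2 = K₁ := sq_sqrt (by linarith)
  have f0 : 0 < √K₀ := sqrt_pos.2 (by linarith)
  exact ⟨s, e, √K₀, √K₁, a, μ, h1, h2, h3, h4, f0, h5.trans q0.ge, sqrt_lt_sqrt (by linarith) h6,
    h7, h8, n1 _ q1.le, n2 _ f0 q0.ge⟩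

theorem mk {n k s e K₀ K₁ a μ t P g j q y : ℝ} (m : ℕ)
    (h : 0 ≤ s ∧ s < 1 ∧ 0 ≤ e ∧ (n - 1) * e < 4 ∧ 5 / 2 ≤ K₀ ∧ K₀ < K₁ ∧ 0 < a ∧
      μ * (n + 1) < 2)
    (h1 : 0 ≤ k ∧ K₁ * (t + s) ≤ 1 + s ∧ 0 ≤ Gen.dis s k e t ∧ 0 ≤ Gen.dis s k e (4 / 5) ∧
      s ^ 2 ≤ e * (1 - s) ∧ 0 ≤ P ∧ k - 2 * s * (4 / 5) - e * (4 / 5 + s) ≤ P ∧
      2 * k * P ≤ e * (4 / 5 + s) * (1 - s) - s ^ 2 * (1 + 4 / 5))
    (h2 : 0 ≤ μ ∧ a ≤ g ∧ j * q = g ∧ 0 < j ∧ g * y ≤ 1 ∧ s ^ 2 < y ∧ y < 1 ∧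
      1 ≤ K₀ * (y - s ^ 2) / (1 - s ^ 2) ∧ a * (y - μ) * (K₀ * (y - s ^ 2) / (1 - s ^ 2) + 1) ≤
        2 * (K₀ * (y - s ^ 2) / (1 - s ^ 2) - 1) ∧
      a * (1 - μ) ≤ 0.6931471803 * m + 1 - 2 ^ m / K₀)
    (ep : ∀ x, 0 ≤ x → x ^ 2 ≤ y → g * (x ^ 2 + x * s) + q * (1 - x ^ 2) ≤ 2)
    (em : ∀ x, 0 ≤ x → x ^ 2 ≤ y → 0 ≤ K₀ * (a * μ + (g - a) * x ^ 2) * (x + s) -
      (2 - g * x ^ 2) * x - g * x ^ 2 * s - g * j * x ^ 3) : Pack n k := by
  obtain ⟨a1, a2, a3, a4, a5, a6, a7, a8⟩ := h1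
  obtain ⟨b1, b2, b3, b4, b5, b6, b7, b8, b9, b10⟩ := h2
  have K0 : 0 < K₀ := by linarith [h.2.2.2.2.1]
  exact mk' h (fun F hF => Gen.nu1 h.1 a1 h.2.2.1 hF a2 a3 a4 a5 a6 a7 a8) fun F F0 hF =>
    Gen.nu2 h.1 K0 F0 hF h.2.2.2.2.2.2.1.le b1 b2 b3 b4 b5 b6 b7 (Gen.log1 b8 b9)
      (Gen.log2 m K0 b10) ep em

theorem pack8 : Pack 8 (7 / 8) :=
  mk (s := 69 / 500) (e := 5711 / 10000) (K₀ := 3709 / 1000) (K₁ := 1857 / 500)
    (a := 163 / 100) (μ := 111 / 500) (t := 421 / 2500) (P := 119 / 1000)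
    (g := 12093 / 5000) (j := 87 / 50) (q := 139 / 100) (y := 91 / 250) 2
    (by norm_num) (by norm_num [Gen.dis]) (by norm_num)
    (fun x _ hy => by nlinarith [sq_nonneg (x - 3 / 5)])
    (fun x x0 _ => by
      nlinarith [mul_nonneg x0 (sq_nonneg (x - 21 / 50)), sq_nonneg (x - 21 / 50)])

theorem pack9 : Pack 9 (7 / 9) :=
  mk (s := 61 / 500) (e := 4997 / 10000) (K₀ := 3973 / 1000) (K₁ := 1989 / 500)
    (a := 169 / 100) (μ := 999 / 5000) (t := 3201 / 20000) (P := 61 / 500)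
    (g := 26167 / 10000) (j := 191 / 100) (q := 137 / 100) (y := 42 / 125) 2
    (by norm_num) (by norm_num [Gen.dis]) (by norm_num)
    (fun x _ hy => by nlinarith [sq_nonneg (x - 29 / 50)])
    (fun x x0 _ => by
      nlinarith [mul_nonneg x0 (sq_nonneg (x - 19 / 50)), sq_nonneg (x - 19 / 50)])

theorem pack10 : Pack 10 (7 / 10) :=
  mk (s := 11 / 100) (e := 2221 / 5000) (K₀ := 4241 / 1000) (K₁ := 2123 / 500)
    (a := 173 / 100) (μ := 227 / 1250) (t := 7571 / 50000) (P := 3 / 25)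
    (g := 14137 / 5000) (j := 211 / 100) (q := 67 / 50) (y := 311 / 1000) 2
    (by norm_num) (by norm_num [Gen.dis]) (by norm_num)
    (fun x _ hy => by nlinarith [sq_nonneg (x - 14 / 25)])
    (fun x x0 _ => by
      nlinarith [mul_nonneg x0 (sq_nonneg (x - 17 / 50)), sq_nonneg (x - 17 / 50)])

theorem pack11 : Pack 11 (7 / 11) :=
  mk (s := 109 / 1000) (e := 1999 / 5000) (K₀ := 4471 / 1000) (K₁ := 1119 / 250)
    (a := 44 / 25) (μ := 333 / 2000) (t := 3469 / 25000) (P := 99 / 1000)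
    (g := 1463 / 500) (j := 11 / 5) (q := 133 / 100) (y := 297 / 1000) 2
    (by norm_num) (by norm_num [Gen.dis]) (by norm_num)
    (fun x _ hy => by nlinarith [sq_nonneg (x - 27 / 50)])
    (fun x x0 _ => by
      nlinarith [mul_nonneg x0 (sq_nonneg (x - 8 / 25)), sq_nonneg (x - 8 / 25)])

theorem pack12 : Pack 12 (7 / 12) :=
  mk (s := 23 / 250) (e := 1817 / 5000) (K₀ := 599 / 125) (K₁ := 4797 / 1000)
    (a := 9 / 5) (μ := 96 / 625) (t := 3391 / 25000) (P := 14 / 125)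
    (g := 15207 / 5000) (j := 111 / 50) (q := 137 / 100) (y := 273 / 1000) 2
    (by norm_num) (by norm_num [Gen.dis]) (by norm_num)
    (fun x _ hy => by nlinarith [sq_nonneg (x - 13 / 25)])
    (fun x x0 _ => by
      nlinarith [mul_nonneg x0 (sq_nonneg (x - 7 / 25)), sq_nonneg (x - 7 / 25)])

theorem pack13 : Pack 13 (7 / 13) :=
  mk (s := 23 / 250) (e := 3331 / 10000) (K₀ := 5023 / 1000) (K₁ := 1257 / 250)
    (a := 181 / 100) (μ := 1427 / 10000) (t := 6259 / 50000) (P := 19 / 200)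
    (g := 6291 / 2000) (j := 233 / 100) (q := 27 / 20) (y := 261 / 1000) 2
    (by norm_num) (by norm_num [Gen.dis]) (by norm_num)
    (fun x _ hy => by nlinarith [sq_nonneg (x - 51 / 100)])
    (fun x x0 _ => by
      nlinarith [mul_nonneg x0 (sq_nonneg (x - 53 / 200)), sq_nonneg (x - 53 / 200)])

theorem pack14 : Pack 14 (7 / 14) :=
  mk (s := 43 / 500) (e := 123 / 400) (K₀ := 2649 / 500) (K₁ := 5303 / 1000)
    (a := 183 / 100) (μ := 333 / 2500) (t := 5939 / 50000) (P := 9 / 100)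
    (g := 3267 / 1000) (j := 121 / 50) (q := 27 / 20) (y := 247 / 1000) 2
    (by norm_num) (by norm_num [Gen.dis]) (by norm_num)
    (fun x _ hy => by nlinarith [sq_nonneg (x - 1 / 2)])
    (fun x x0 _ => by
      nlinarith [mul_nonneg x0 (sq_nonneg (x - 49 / 200)), sq_nonneg (x - 49 / 200)])

theorem pack15 : Pack 15 (7 / 15) :=
  mk (s := 2 / 25) (e := 571 / 2000) (K₀ := 5581 / 1000) (K₁ := 2793 / 500)
    (a := 37 / 20) (μ := 78 / 625) (t := 5667 / 50000) (P := 11 / 125)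
    (g := 17423 / 5000) (j := 133 / 50) (q := 131 / 100) (y := 117 / 500) 2
    (by norm_num) (by norm_num [Gen.dis]) (by norm_num)
    (fun x _ hy => by nlinarith [sq_nonneg (x - 12 / 25)])
    (fun x x0 _ => by
      nlinarith [mul_nonneg x0 (sq_nonneg (x - 9 / 40)), sq_nonneg (x - 9 / 40)])

theorem pack16 : Pack 16 (7 / 16) :=
  mk (s := 69 / 1000) (e := 533 / 2000) (K₀ := 5929 / 1000) (K₁ := 2967 / 500)
    (a := 189 / 100) (μ := 47 / 400) (t := 5557 / 50000) (P := 12 / 125)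
    (g := 18447 / 5000) (j := 143 / 50) (q := 129 / 100) (y := 111 / 500) 3
    (by norm_num) (by norm_num [Gen.dis]) (by norm_num)
    (fun x _ hy => by nlinarith [sq_nonneg (x - 47 / 100)])
    (fun x x0 _ => by
      nlinarith [mul_nonneg x0 (sq_nonneg (x - 41 / 200)), sq_nonneg (x - 41 / 200)])

theorem pack17 : Pack 17 (7 / 17) :=
  mk (s := 13 / 200) (e := 1249 / 5000) (K₀ := 777 / 125) (K₁ := 6221 / 1000)
    (a := 193 / 100) (μ := 111 / 1000) (t := 10619 / 100000) (P := 23 / 250)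
    (g := 3679 / 1000) (j := 283 / 100) (q := 13 / 10) (y := 27 / 125) 3
    (by norm_num) (by norm_num [Gen.dis]) (by norm_num)
    (fun x _ hy => by nlinarith [sq_nonneg (x - 23 / 50)])
    (fun x x0 _ => by
      nlinarith [mul_nonneg x0 (sq_nonneg (x - 39 / 200)), sq_nonneg (x - 39 / 200)])

theorem pack18 : Pack 18 (7 / 18) :=
  mk (s := 61 / 1000) (e := 2351 / 10000) (K₀ := 651 / 100) (K₁ := 1303 / 200)
    (a := 197 / 100) (μ := 1051 / 10000) (t := 2037 / 20000) (P := 89 / 1000)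
    (g := 36811 / 10000) (j := 281 / 100) (q := 131 / 100) (y := 21 / 100) 3
    (by norm_num) (by norm_num [Gen.dis]) (by norm_num)
    (fun x _ hy => by nlinarith [sq_nonneg (x - 23 / 50)])
    (fun x x0 _ => by
      nlinarith [mul_nonneg x0 (sq_nonneg (x - 19 / 100)), sq_nonneg (x - 19 / 100)])

theorem pack19 : Pack 19 (7 / 19) :=
  mk (s := 29 / 500) (e := 2221 / 10000) (K₀ := 6799 / 1000) (K₁ := 1701 / 250)
    (a := 2) (μ := 999 / 10000) (t := 9749 / 100000) (P := 43 / 500)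
    (g := 472 / 125) (j := 59 / 20) (q := 32 / 25) (y := 41 / 200) 3
    (by norm_num) (by norm_num [Gen.dis]) (by norm_num)
    (fun x _ hy => by nlinarith [sq_nonneg (x - 9 / 20)])
    (fun x x0 _ => by
      nlinarith [mul_nonneg x0 (sq_nonneg (x - 9 / 50)), sq_nonneg (x - 9 / 50)])

theorem pack20 : Pack 20 (7 / 20) :=
  mk (s := 11 / 200) (e := 263 / 1250) (K₀ := 7091 / 1000) (K₁ := 887 / 125)
    (a := 101 / 50) (μ := 951 / 10000) (t := 9367 / 100000) (P := 83 / 1000)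
    (g := 19803 / 5000) (j := 161 / 50) (q := 123 / 100) (y := 1 / 5) 3
    (by norm_num) (by norm_num [Gen.dis]) (by norm_num)
    (fun x _ hy => by nlinarith [sq_nonneg (x - 9 / 20)])
    (fun x x0 _ => by
      nlinarith [mul_nonneg x0 (sq_nonneg (x - 7 / 40)), sq_nonneg (x - 7 / 40)])

theorem pack21 : Pack 21 (7 / 21) :=
  mk (s := 13 / 250) (e := 1999 / 10000) (K₀ := 739 / 100) (K₁ := 1479 / 200)
    (a := 41 / 20) (μ := 227 / 2500) (t := 361 / 4000) (P := 2 / 25)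
    (g := 20207 / 5000) (j := 167 / 50) (q := 121 / 100) (y := 39 / 200) 3
    (by norm_num) (by norm_num [Gen.dis]) (by norm_num)
    (fun x _ hy => by nlinarith [sq_nonneg (x - 11 / 25)])
    (fun x x0 _ => by
      nlinarith [mul_nonneg x0 (sq_nonneg (x - 33 / 200)), sq_nonneg (x - 33 / 200)])

theorem pack22 : Pack 22 (7 / 22) :=
  mk (s := 1 / 20) (e := 1903 / 10000) (K₀ := 959 / 125) (K₁ := 7677 / 1000)
    (a := 207 / 100) (μ := 217 / 2500) (t := 8677 / 100000) (P := 77 / 1000)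
    (g := 41293 / 10000) (j := 347 / 100) (q := 119 / 100) (y := 191 / 1000) 3
    (by norm_num) (by norm_num [Gen.dis]) (by norm_num)
    (fun x _ hy => by nlinarith [sq_nonneg (x - 11 / 25)])
    (fun x x0 _ => by
      nlinarith [mul_nonneg x0 (sq_nonneg (x - 4 / 25)), sq_nonneg (x - 4 / 25)])

theorem pack23 : Pack 23 (7 / 23) :=
  mk (s := 6 / 125) (e := 1817 / 10000) (K₀ := 3981 / 500) (K₁ := 7967 / 1000)
    (a := 209 / 100) (μ := 52 / 625) (t := 4177 / 50000) (P := 37 / 500)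
    (g := 1029 / 250) (j := 343 / 100) (q := 6 / 5) (y := 93 / 500) 3
    (by norm_num) (by norm_num [Gen.dis]) (by norm_num)
    (fun x _ hy => by nlinarith [sq_nonneg (x - 43 / 100)])
    (fun x x0 _ => by
      nlinarith [mul_nonneg x0 (sq_nonneg (x - 31 / 200)), sq_nonneg (x - 31 / 200)])

theorem pack24 : Pack 24 (7 / 24) :=
  mk (s := 23 / 500) (e := 869 / 5000) (K₀ := 1651 / 200) (K₁ := 413 / 50)
    (a := 21 / 10) (μ := 799 / 10000) (t := 8063 / 100000) (P := 9 / 125)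
    (g := 2691 / 625) (j := 92 / 25) (q := 117 / 100) (y := 91 / 500) 3
    (by norm_num) (by norm_num [Gen.dis]) (by norm_num)
    (fun x _ hy => by nlinarith [sq_nonneg (x - 43 / 100)])
    (fun x x0 _ => by
      nlinarith [mul_nonneg x0 (sq_nonneg (x - 29 / 200)), sq_nonneg (x - 29 / 200)])

theorem pack25 : Pack 25 (7 / 25) :=
  mk (s := 11 / 250) (e := 333 / 2000) (K₀ := 8549 / 1000) (K₁ := 4277 / 500)
    (a := 53 / 25) (μ := 48 / 625) (t := 1951 / 25000) (P := 7 / 100)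
    (g := 5481 / 1250) (j := 189 / 50) (q := 29 / 25) (y := 177 / 1000) 3
    (by norm_num) (by norm_num [Gen.dis]) (by norm_num)
    (fun x _ hy => by nlinarith [sq_nonneg (x - 21 / 50)])
    (fun x x0 _ => by
      nlinarith [mul_nonneg x0 (sq_nonneg (x - 7 / 50)), sq_nonneg (x - 7 / 50)])

theorem pack26 : Pack 26 (7 / 26) :=
  mk (s := 19 / 500) (e := 1599 / 10000) (K₀ := 224 / 25) (K₁ := 1793 / 200)
    (a := 43 / 20) (μ := 37 / 500) (t := 3889 / 50000) (P := 3 / 40)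
    (g := 4531 / 1000) (j := 197 / 50) (q := 23 / 20) (y := 17 / 100) 3
    (by norm_num) (by norm_num [Gen.dis]) (by norm_num)
    (fun x _ hy => by nlinarith [sq_nonneg (x - 41 / 100)])
    (fun x x0 _ => by
      nlinarith [mul_nonneg x0 (sq_nonneg (x - 13 / 100)), sq_nonneg (x - 13 / 100)])

theorem pack27 : Pack 27 (7 / 27) :=
  mk (s := 37 / 1000) (e := 1537 / 10000) (K₀ := 1849 / 200) (K₁ := 37 / 4)
    (a := 54 / 25) (μ := 713 / 10000) (t := 751 / 10000) (P := 9 / 125)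
    (g := 12099 / 2500) (j := 111 / 25) (q := 109 / 100) (y := 83 / 500) 3
    (by norm_num) (by norm_num [Gen.dis]) (by norm_num)
    (fun x _ hy => by nlinarith [sq_nonneg (x - 41 / 100)])
    (fun x x0 _ => by
      nlinarith [mul_nonneg x0 (sq_nonneg (x - 1 / 8)), sq_nonneg (x - 1 / 8)])

theorem pack28 : Pack 28 (7 / 28) :=
  mk (s := 9 / 250) (e := 37 / 250) (K₀ := 4767 / 500) (K₁ := 9539 / 1000)
    (a := 217 / 100) (μ := 43 / 625) (t := 363 / 5000) (P := 69 / 1000)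
    (g := 9951 / 2000) (j := 93 / 20) (q := 107 / 100) (y := 163 / 1000) 3
    (by norm_num) (by norm_num [Gen.dis]) (by norm_num)
    (fun x _ hy => by nlinarith [sq_nonneg (x - 2 / 5)])
    (fun x x0 _ => by
      nlinarith [mul_nonneg x0 (sq_nonneg (x - 3 / 25)), sq_nonneg (x - 3 / 25)])

theorem pack29 : Pack 29 (7 / 29) :=
  mk (s := 19 / 500) (e := 1427 / 10000) (K₀ := 9721 / 1000) (K₁ := 4863 / 500)
    (a := 217 / 100) (μ := 333 / 5000) (t := 859 / 12500) (P := 61 / 1000)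
    (g := 48471 / 10000) (j := 453 / 100) (q := 107 / 100) (y := 163 / 1000) 3
    (by norm_num) (by norm_num [Gen.dis]) (by norm_num)
    (fun x _ hy => by nlinarith [sq_nonneg (x - 2 / 5)])
    (fun x x0 _ => by
      nlinarith [mul_nonneg x0 (sq_nonneg (x - 3 / 25)), sq_nonneg (x - 3 / 25)])

theorem pack4 {n : ℝ} (h : n ≤ 4) : Pack n (7 / 4) :=
  mk' (K₀ := 143 / 50) (K₁ := 72 / 25) ⟨by norm_num, by norm_num, by norm_num, by linarith,
    by norm_num, by norm_num, by norm_num, by linarith⟩ (fun _ => nu1_four) fun _ => nu2_four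

theorem pack5 : Pack 5 (7 / 5) :=
  mk' (K₀ := 301 / 100) (K₁ := 303 / 100) (by norm_num) (fun _ => nu1_five) fun _ => nu2_five

theorem pack6 : Pack 6 (7 / 6) :=
  mk' (K₀ := 161 / 50) (K₁ := 81 / 25) (by norm_num) (fun _ => nu1_six) fun _ => nu2_six

theorem pack7 : Pack 7 (7 / 7) := by
  rw [div_self (by norm_num)]
  exact mk' (K₀ := 173 / 50) (K₁ := 347 / 100) (by norm_num) (fun _ => nu1_seven)
    fun _ => nu2_seven

end Tab

open Tab in
/-- The table. -/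
theorem pack {n : ℕ} (h : n ≤ 29) : Pack n (7 / max (n : ℝ) 4) := by
  rcases le_or_gt n 4 with k | k
  · have k' : (n : ℝ) ≤ 4 := by exact_mod_cast k
    rw [max_eq_right k']
    exact pack4 k'
  · rw [max_eq_left (by exact_mod_cast k.le)]
    interval_cases n
    exacts [pack5, pack6, pack7, pack8, pack9, pack10, pack11, pack12, pack13, pack14, pack15,
      pack16, pack17, pack18, pack19, pack20, pack21, pack22, pack23, pack24, pack25, pack26,
      pack27, pack28, pack29]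

end Pool.Agent.MP_3ee8cb_gt.DRB
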